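import Mathlib

/-!
# MP_3e27e0_al, project CM (common models of F and F x Z): definitions (helper45)

* `ThompsonF`: Thompson's group F as a group of order isomorphisms of [0, 1] (file `Thomp.lean` proves
  that it is a subgroup);
* `Geometric Γ X G`: the group acts on the graph by automorphisms, with finite vertex stabilisers and
  finitely many orbits of vertices;
* `BddAut`: bounded automorphisms of a graph;
* `Good`: what is used about the group;
* `A`, `Har`: adjacency operator and normalised positive eigenfunctions.
-/

set_option autoImplicit false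

namespace Pool.Agent.Lib.MP_3e27e0_al.CM

/-- Dyadic rationals. -/
def Dyadic (x : ℝ) : Prop := ∃ (m : ℤ) (k : ℕ), x = (m : ℝ) / 2 ^ k

/-- The unit interval. -/
abbrev UI : Type := Set.Icc (0 : ℝ) 1

/-- `f : [0, 1] → [0, 1]` (an increasing bijection, that is, an orientation-preserving
homeomorphism) is piecewise linear, with finitely many breakpoints, all of them dyadic rationals, and
all slopes are integer powers of 2: there is a finite set `s` of dyadic rationals such that `f` is
linear with slope a power of 2 on every interval `[a, b]` with no point of `s` in its interior. -/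
def IsT (f : UI ≃o UI) : Prop :=
  ∃ s : Finset ℝ, (∀ x ∈ s, Dyadic x) ∧
    ∀ a b : UI, a < b → (∀ x ∈ s, x ≤ (a : ℝ) ∨ (b : ℝ) ≤ x) →
      ∃ k : ℤ, ∀ t : UI, a ≤ t → t ≤ b → (f t : ℝ) - (f a : ℝ) = (2 : ℝ) ^ k * ((t : ℝ) - (a : ℝ))

/-- What is used about the group: a subadditive length with linear growth of the powers of every
nontrivial element, and trivial centralisers of the subgroups of finite index. -/
structure Good (Γ : Type*) [Group Γ] : Prop where
  len : ∃ L : Γ → ℕ, (∀ g h, L (g * h) ≤ L g + L h) ∧ ∀ g, g ≠ 1 → ∀ n : ℕ, n ≤ L (g ^ n)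
  cen : ∀ H : Subgroup Γ, H.FiniteIndex → ∀ g : Γ, (∀ h ∈ H, g * h = h * g) → g = 1

section Graph

variable {X : Type*}

/-- The group `Γ` acts on the graph `G` by automorphisms, with finite stabilisers of vertices and
finitely many orbits of vertices. -/
structure Geometric (Γ : Type*) (X : Type*) [Group Γ] [MulAction Γ X] (G : SimpleGraph X) : Prop where
  adj : ∀ (g : Γ) (x y : X), G.Adj (g • x) (g • y) ↔ G.Adj x y
  fin : ∀ x : X, (MulAction.stabilizer Γ x : Set Γ).Finite
  cof : Finite (MulAction.orbitRel.Quotient Γ X)

/-- Bounded automorphisms: `d(x, b x)` is bounded. -/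
def BddAut (G : SimpleGraph X) (b : G ≃g G) : Prop := ∃ D : ℕ, ∀ x : X, G.dist x (b x) ≤ D

/-- Adjacency operator. -/
def A (G : SimpleGraph X) [G.LocallyFinite] (h : X → ℝ) (x : X) : ℝ :=
  ∑ y ∈ G.neighborFinset x, h y

/-- Normalised nonnegative eigenfunctions of the adjacency operator. -/
structure Har (G : SimpleGraph X) [G.LocallyFinite] (lam : ℝ) (x0 : X) (h : X → ℝ) : Prop where
  nn : ∀ x, 0 ≤ h x
  eig : ∀ x, A G h x = lam * h x
  one : h x0 = 1

end Graph

end Pool.Agent.Lib.MP_3e27e0_al.CM
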