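import Pool.Agent.Lib.MP_3e27e0_al.CM.Main

/-!
# Project CM: bounded automorphisms have finite orbits; finite FC-centre
-/

set_option autoImplicit false

namespace Pool.Agent.Lib.MP_3e27e0_al.CM

variable {X : Type*} {G : SimpleGraph X} {Γ : Type*} [Group Γ] [MulAction Γ X]

section Core

variable [G.LocallyFinite] (hg : Geometric Γ X G) (hc : G.Connected)

/-- The elements which commute with `z` modulo `InP`. -/
def comSub {lam : ℝ} (hl1 : 1 < lam) (x0 : X) (z : G ≃g G) (hz : BddAut G z) : Subgroup Γ where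
  carrier := {γ | InP G lam x0 (hg.aut γ * z * (hg.aut γ)⁻¹ * z⁻¹)}
  one_mem' := by
    have e : hg.aut 1 * z * (hg.aut 1)⁻¹ * z⁻¹ = 1 := by rw [map_one]; group
    change InP G lam x0 _
    rw [e]
    exact InP.one
  mul_mem' := by
    intro a b ha hb
    have e : hg.aut (a * b) * z * (hg.aut (a * b))⁻¹ * z⁻¹ =
        (hg.aut a * (hg.aut b * z * (hg.aut b)⁻¹ * z⁻¹) * (hg.aut a)⁻¹) *
          (hg.aut a * z * (hg.aut a)⁻¹ * z⁻¹) := by rw [map_mul]; group
    change InP G lam x0 _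
    rw [e]
    exact (InP.conj hb (hg.aut a) hl1 hc).mul ha hc
  inv_mem' := by
    intro a ha
    have e : hg.aut a⁻¹ * z * (hg.aut a⁻¹)⁻¹ * z⁻¹ =
        (hg.aut a)⁻¹ * (hg.aut a * z * (hg.aut a)⁻¹ * z⁻¹)⁻¹ * ((hg.aut a)⁻¹)⁻¹ := by
      rw [map_inv]; group
    change InP G lam x0 _
    rw [e]
    exact InP.conj (InP.inv' ha) _ hl1 hc

theorem mem_comSub {lam : ℝ} (hl1 : 1 < lam) (x0 : X) (z : G ≃g G) (hz : BddAut G z) (γ : Γ) :
    γ ∈ comSub hg hc hl1 x0 z hz ↔ InP G lam x0 (hg.aut γ * z * (hg.aut γ)⁻¹ * z⁻¹) := Iff.rfl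

theorem comSub_fin {lam : ℝ} (hl1 : 1 < lam) (x0 : X) (z : G ≃g G) (hz : BddAut G z) :
    (comSub hg hc hl1 x0 z hz).FiniteIndex := by
  obtain ⟨D, hD⟩ := hz
  have hball := ball_finite (G := G) hc x0 D
  have : Finite {y | G.dist x0 y ≤ D} := hball
  let f : Γ → G ≃g G := fun γ => hg.aut γ * z * (hg.aut γ)⁻¹
  have hf : ∀ γ, G.dist x0 (f γ x0) ≤ D := by
    intro γ
    have h1 := hD ((hg.aut γ)⁻¹ x0)
    rw [← dist_aut (hg.aut γ) hc] at h1
    have h2 : hg.aut γ ((hg.aut γ)⁻¹ x0) = x0 := (hg.aut γ).apply_symm_apply x0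
    rw [h2] at h1
    exact h1
  let F : Γ ⧸ comSub hg hc hl1 x0 z ⟨D, hD⟩ → {y | G.dist x0 y ≤ D} := fun q =>
    ⟨f (Quotient.out q) x0, hf _⟩
  have hF : Function.Injective F := by
    intro q q' hqq
    have h1 : f (Quotient.out q) x0 = f (Quotient.out q') x0 := congrArg Subtype.val hqq
    have hb : ∀ γ, BddAut G (f γ) := fun γ => BddAut.conj ⟨D, hD⟩ (hg.aut γ) hc
    have h2 := inP_of_eq (lam := lam) hl1 hc (hb _) (hb _) h1
    have h3 := h2.conj (hg.aut (Quotient.out q'))⁻¹ hl1 hc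
    have h4 : (Quotient.out q')⁻¹ * Quotient.out q ∈ comSub hg hc hl1 x0 z ⟨D, hD⟩ := by
      rw [mem_comSub]
      have e : hg.aut ((Quotient.out q')⁻¹ * Quotient.out q) * z *
          (hg.aut ((Quotient.out q')⁻¹ * Quotient.out q))⁻¹ * z⁻¹ =
          (hg.aut (Quotient.out q'))⁻¹ * (f (Quotient.out q) * (f (Quotient.out q'))⁻¹) *
            ((hg.aut (Quotient.out q'))⁻¹)⁻¹ := by
        simp only [f, map_mul, map_inv]
        group
      rw [e]
      exact h3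
    have h5 := QuotientGroup.eq.2 h4
    rw [← Quotient.out_eq q, ← Quotient.out_eq q']
    exact h5.symm
  have := Finite.of_injective F hF
  exact Subgroup.finiteIndex_of_finite_quotient

theorem com_pow {lam : ℝ} (hl1 : 1 < lam) (x0 : X) (z : G ≃g G) (hz : BddAut G z) {γ : Γ}
    (hγ : γ ∈ comSub hg hc hl1 x0 z hz) (n : ℕ) :
    ∃ e, InP G lam x0 e ∧ hg.aut γ * z ^ n * (hg.aut γ)⁻¹ = e * z ^ n := by
  induction n with
  | zero => exact ⟨1, InP.one, by group⟩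
  | succ n ih =>
    obtain ⟨e, he, hen⟩ := ih
    refine ⟨(hg.aut γ * z * (hg.aut γ)⁻¹ * z⁻¹) * (z * e * z⁻¹),
      ((mem_comSub hg hc hl1 x0 z hz γ).1 hγ).mul (he.conj z hl1 hc) hc, ?_⟩
    have e1 : hg.aut γ * z ^ (n + 1) * (hg.aut γ)⁻¹ =
        (hg.aut γ * z * (hg.aut γ)⁻¹) * (hg.aut γ * z ^ n * (hg.aut γ)⁻¹) := by
      rw [pow_succ']
      group
    rw [e1, hen, pow_succ']
    group

variable (hG : Good Γ)

include hg hc hG

/-- Bounded automorphisms have finite orbits. -/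
theorem orb_bdd {Δ : ℕ} (hΔ : ∀ x, G.degree x ≤ Δ) {lam : ℝ} (hl : (Δ : ℝ) < lam)
    (hl1 : 1 < lam) (z : G ≃g G) (hz : BddAut G z) (x0 : X) : ∃ n : ℕ, n ≠ 0 ∧ (z ^ n) x0 = x0 := by
  by_contra hcon
  push Not at hcon
  have hinj : ∀ n m : ℕ, n ≤ m → (z ^ n) x0 = (z ^ m) x0 → n = m := by
    intro n m hnm h
    by_contra hne
    refine hcon (m - n) (by omega) ?_
    apply (z ^ n).injective
    rw [h]
    change (z ^ n * z ^ (m - n)) x0 = (z ^ m) x0
    rw [← pow_add, Nat.add_sub_cancel' hnm]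
  have hinj' : ∀ n m : ℕ, (z ^ n) x0 = (z ^ m) x0 → n = m := by
    intro n m h
    rcases le_total n m with h1 | h1
    · exact hinj n m h1 h
    · exact (hinj m n h1 h.symm).symm
  have := hg.cof
  obtain ⟨q, hq⟩ := Finite.exists_infinite_fiber
    (fun n : ℕ => Quotient.mk (MulAction.orbitRel Γ X) ((z ^ n) x0))
  set N : Set ℕ := (fun n : ℕ => Quotient.mk (MulAction.orbitRel Γ X) ((z ^ n) x0)) ⁻¹' {q} with hN
  have hNinf : N.Infinite := Set.infinite_coe_iff.1 hq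
  set r := Quotient.out q with hr
  have hex : ∀ n : ℕ, ∃ γ : Γ, n ∈ N → γ • r = (z ^ n) x0 := by
    intro n
    by_cases hn : n ∈ N
    · obtain ⟨γ, hγ⟩ := exists_out (Γ := Γ) ((z ^ n) x0)
      have h1 : Quotient.mk (MulAction.orbitRel Γ X) ((z ^ n) x0) = q := hn
      rw [h1] at hγ
      exact ⟨γ, fun _ => hγ⟩
    · exact ⟨1, fun h => absurd h hn⟩
  choose γ hγ using hex
  set H := comSub hg hc hl1 x0 z hz with hH
  have hHf : H.FiniteIndex := comSub_fin hg hc hl1 x0 z hz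
  have hfg : Group.FG Γ := hg.fg hc
  have hHfg : Group.FG H := Subgroup.fg_of_index_ne_zero H
  obtain ⟨T, hT⟩ := (Group.fg_iff_subgroup_fg H).1 hHfg
  obtain ⟨δ, hδ⟩ := diam_inP hg hc hG hΔ hl hl1 x0
  have hbound : ∀ η ∈ H, ∀ n ∈ N, G.dist r (((γ n)⁻¹ * η * γ n) • r) ≤
      δ + G.dist (η • x0) x0 := by
    intro η hη n hn
    obtain ⟨e, he, hen⟩ := com_pow hg hc hl1 x0 z hz hη n
    have h1 : G.dist r (((γ n)⁻¹ * η * γ n) • r) = G.dist ((z ^ n) x0) (η • ((z ^ n) x0)) := by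
      rw [← hg.dist_smul hc (γ n), ← mul_smul, ← hγ n hn, ← mul_smul η]
      congr 2
      group
    have h2 : η • ((z ^ n) x0) = e ((z ^ n) (η • x0)) := by
      have h3 := congrArg (fun b : G ≃g G => b (η • x0)) hen
      have h4 : (hg.aut η * z ^ n * (hg.aut η)⁻¹) (η • x0) = η • ((z ^ n) x0) := by
        change hg.aut η ((z ^ n) ((hg.aut η)⁻¹ (hg.aut η x0))) = _
        have h5 : (hg.aut η)⁻¹ (hg.aut η x0) = x0 := (hg.aut η).symm_apply_apply x0
        rw [h5]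
        rfl
      rw [← h4]
      exact h3
    rw [h1, h2]
    have h6 := hc.dist_triangle (u := (z ^ n) x0) (v := (z ^ n) (η • x0))
      (w := e ((z ^ n) (η • x0)))
    have h7 := hδ e he ((z ^ n) (η • x0))
    rw [dist_aut (z ^ n) hc, SimpleGraph.dist_comm (u := x0)] at h6
    omega
  have hmaps : Set.MapsTo (fun n : ℕ => fun t : T => (γ n)⁻¹ * (t : Γ) * γ n) N
      (Set.pi Set.univ fun t : T => {g : Γ | G.dist r (g • r) ≤ δ + G.dist ((t : Γ) • x0) x0}) := by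
    intro n hn t _
    refine hbound t ?_ n hn
    rw [← hT]
    exact Subgroup.subset_closure t.2
  have hfin : (Set.pi Set.univ fun t : T =>
      {g : Γ | G.dist r (g • r) ≤ δ + G.dist ((t : Γ) • x0) x0}).Finite :=
    Set.Finite.pi fun t => hg.finite hc r _
  obtain ⟨n, hn, m, hm, hnm, heq⟩ := hNinf.exists_ne_map_eq_of_mapsTo hmaps hfin
  apply hnm
  have hcomm : ∀ t ∈ T, (γ m * (γ n)⁻¹) * t = t * (γ m * (γ n)⁻¹) := by
    intro t ht
    have h1 : (γ n)⁻¹ * t * γ n = (γ m)⁻¹ * t * γ m := congrFun heq ⟨t, ht⟩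
    calc (γ m * (γ n)⁻¹) * t = γ m * ((γ n)⁻¹ * t * γ n) * (γ n)⁻¹ := by group
      _ = γ m * ((γ m)⁻¹ * t * γ m) * (γ n)⁻¹ := by rw [h1]
      _ = t * (γ m * (γ n)⁻¹) := by group
  have hle : H ≤ Subgroup.centralizer {γ m * (γ n)⁻¹} := by
    rw [← hT, Subgroup.closure_le]
    intro t ht
    rw [SetLike.mem_coe, Subgroup.mem_centralizer_iff]
    intro c hc'
    rw [Set.mem_singleton_iff.1 hc']
    exact hcomm t ht
  have h1 : γ m * (γ n)⁻¹ = 1 := by
    refine hG.cen H hHf _ fun h hh => ?_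
    have h2 := (Subgroup.mem_centralizer_iff.1 (hle hh)) _ (Set.mem_singleton _)
    exact h2
  have h2 : γ m = γ n := mul_inv_eq_one.1 h1
  have h3 := hγ n hn
  have h4 := hγ m hm
  rw [h2, h3] at h4
  exact hinj' n m h4

theorem bdd_inP {Δ : ℕ} (hΔ : ∀ x, G.degree x ≤ Δ) {lam : ℝ} (hl : (Δ : ℝ) < lam)
    (hl1 : 1 < lam) (z : G ≃g G) (hz : BddAut G z) (x0 : X) : InP G lam x0 z := by
  obtain ⟨n, hn, hx⟩ := orb_bdd hg hc hG hΔ hl hl1 z hz x0
  exact inP_of_fix hl1 hc hz hn hx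

/-- The orbits of the group of all bounded automorphisms. -/
theorem orb_all (y : X) : {w | ∃ b : G ≃g G, BddAut G b ∧ b y = w}.Finite ∧
    {w | ∃ b : G ≃g G, BddAut G b ∧ b y = w}.ncard ≤
      Nat.card (MulAction.orbitRel.Quotient Γ X) := by
  obtain ⟨Δ, hΔ⟩ := hg.degree
  have hl : (Δ : ℝ) < (Δ : ℝ) + 2 := by linarith
  have hl1 : (1 : ℝ) < (Δ : ℝ) + 2 := by
    have : (0 : ℝ) ≤ Δ := Nat.cast_nonneg Δ
    linarith
  have e : {w | ∃ b : G ≃g G, BddAut G b ∧ b y = w} =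
      {w | ∃ p, InP G ((Δ : ℝ) + 2) y p ∧ p y = w} := by
    ext w
    constructor
    · rintro ⟨b, hb, hw⟩
      exact ⟨b, bdd_inP hg hc hG hΔ hl hl1 b hb y, hw⟩
    · rintro ⟨b, hb, hw⟩
      exact ⟨b, hb.bdd, hw⟩
  rw [e]
  exact orb_inP hg hc hG hΔ hl hl1 y y

end Core

omit [MulAction Γ X] in
theorem Geometric.finite_pre [MulAction Γ X] (hg : Geometric Γ X G) (x : X) {s : Set X}
    (hs : s.Finite) : {γ : Γ | γ • x ∈ s}.Finite := by
  have h2 : ((fun γ : Γ => γ • x) ⁻¹' s).Finite := by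
    refine hs.preimage' fun y _ => ?_
    by_cases h : ∃ γ0 : Γ, γ0 • x = y
    · obtain ⟨γ0, hγ0⟩ := h
      refine ((hg.fin x).image fun s => γ0 * s).subset ?_
      intro γ hγ
      have h3 : γ • x = y := hγ
      refine ⟨γ0⁻¹ * γ, ?_, by simp⟩
      change (γ0⁻¹ * γ) • x = x
      rw [mul_smul, h3, ← hγ0, inv_smul_smul]
    · refine Set.finite_empty.subset ?_
      intro γ hγ
      exact h ⟨γ, hγ⟩
  exact h2

/-- Elements with finite conjugacy class are bounded automorphisms. -/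
theorem bdd_of_fc (hg : Geometric Γ X G) (hc : G.Connected) (l : Γ)
    (hl : {c : Γ | ∃ m : Γ, c = m * l * m⁻¹}.Finite) : BddAut G (hg.aut l) := by
  classical
  have := hg.cof
  have := Fintype.ofFinite (MulAction.orbitRel.Quotient Γ X)
  refine ⟨Finset.univ.sup fun q : MulAction.orbitRel.Quotient Γ X =>
    hl.toFinset.sup fun c => G.dist (Quotient.out q) (c • (Quotient.out q)), fun y => ?_⟩
  obtain ⟨m, hm⟩ := exists_out (Γ := Γ) y
  set r := Quotient.out (Quotient.mk (MulAction.orbitRel Γ X) y) with hr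
  have h1 : G.dist y (hg.aut l y) = G.dist r ((m⁻¹ * l * m) • r) := by
    rw [← hg.dist_smul hc m r, ← mul_smul, hg.aut_apply]
    congr 1
    · exact hm.symm
    · have e : m * (m⁻¹ * l * m) = l * m := by group
      rw [e, mul_smul, hm]
  rw [h1]
  have h2 : m⁻¹ * l * m ∈ hl.toFinset := by
    rw [Set.Finite.mem_toFinset]
    exact ⟨m⁻¹, by rw [inv_inv]⟩
  exact (Finset.le_sup (f := fun c => G.dist r (c • r)) h2).trans
    (Finset.le_sup (f := fun q : MulAction.orbitRel.Quotient Γ X =>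
      hl.toFinset.sup fun c => G.dist (Quotient.out q) (c • (Quotient.out q))) (Finset.mem_univ _))

/-- A group with a geometric action on the same graph has a finite FC-centre. -/
theorem fc_finite {Λ : Type*} [Group Λ] [MulAction Λ X] [G.LocallyFinite]
    (hg : Geometric Γ X G) (hL : Geometric Λ X G) (hc : G.Connected) (hG : Good Γ) :
    {l : Λ | {c : Λ | ∃ m : Λ, c = m * l * m⁻¹}.Finite}.Finite := by
  obtain ⟨x⟩ := hc.nonempty
  refine (hL.finite_pre x (orb_all hg hc hG x).1).subset ?_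
  intro l hl
  exact ⟨hL.aut l, bdd_of_fc hL hc l hl, rfl⟩

end Pool.Agent.Lib.MP_3e27e0_al.CM
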