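import Pool.Agent.Lib.MP_3e27e0_al.CM.Def

/-!
# Project CM: the Green function

`u w y = ∑_k lam^(-k-1) (A^k δ_w)(y)`. The iterates `(A G)^[k] δ_w` are between `0` and `Δ ^ k`, vanish at
`y` for `k < dist y w`, and are equivariant under automorphisms.
-/

set_option autoImplicit false

namespace Pool.Agent.Lib.MP_3e27e0_al.CM

variable {X : Type*}

section

variable (G : SimpleGraph X) [G.LocallyFinite]

private noncomputable def dl (w : X) : X → ℝ := by
  classical exact fun y => if y = w then 1 else 0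

private theorem dl_self (w : X) : dl w w = 1 := by
  simp [dl]

private theorem dl_ne {w y : X} (h : y ≠ w) : dl w y = 0 := by
  simp [dl, h]

private theorem dl_nn (w y : X) : 0 ≤ dl w y := by
  by_cases h : y = w
  · rw [h, dl_self]
    exact zero_le_one
  · rw [dl_ne h]

private theorem dl_le (w y : X) : dl w y ≤ 1 := by
  by_cases h : y = w
  · rw [h, dl_self]
  · rw [dl_ne h]
    exact zero_le_one

/-- the iterates -/
private noncomputable def it (w : X) (k : ℕ) : X → ℝ := (A G)^[k] (dl w)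

private theorem it_zero (w y : X) : it G w 0 y = dl w y := rfl

private theorem it_succ (w : X) (k : ℕ) (y : X) :
    it G w (k + 1) y = ∑ z ∈ G.neighborFinset y, it G w k z := by
  rw [it, Function.iterate_succ_apply', A]
  rfl

private theorem it_nn (w : X) (k : ℕ) (y : X) : 0 ≤ it G w k y := by
  induction k generalizing y with
  | zero => exact dl_nn w y
  | succ k ih =>
    rw [it_succ]
    exact Finset.sum_nonneg fun z _ => ih z

private theorem it_le (Δ : ℕ) (hΔ : ∀ x, G.degree x ≤ Δ) (w : X) (k : ℕ) (y : X) :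
    it G w k y ≤ (Δ : ℝ) ^ k := by
  induction k generalizing y with
  | zero =>
    rw [pow_zero]
    exact dl_le w y
  | succ k ih =>
    rw [it_succ]
    calc ∑ z ∈ G.neighborFinset y, it G w k z
        ≤ (G.neighborFinset y).card • ((Δ : ℝ) ^ k) :=
          Finset.sum_le_card_nsmul _ _ _ fun z _ => ih z
      _ = (G.degree y : ℝ) * (Δ : ℝ) ^ k := by
          rw [nsmul_eq_mul, SimpleGraph.card_neighborFinset_eq_degree]
      _ ≤ (Δ : ℝ) * (Δ : ℝ) ^ k := by
          refine mul_le_mul_of_nonneg_right ?_ (by positivity)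
          exact_mod_cast hΔ y
      _ = (Δ : ℝ) ^ (k + 1) := by rw [pow_succ]; ring

private theorem it_eq_zero (hc : G.Connected) (w : X) (k : ℕ) (y : X) (h : k < G.dist y w) :
    it G w k y = 0 := by
  induction k generalizing y with
  | zero =>
    refine dl_ne ?_
    rintro rfl
    rw [SimpleGraph.dist_self] at h
    exact lt_irrefl _ h
  | succ k ih =>
    rw [it_succ]
    refine Finset.sum_eq_zero fun z hz => ih z ?_
    rw [SimpleGraph.mem_neighborFinset] at hz
    have h1 : G.dist y z = 1 := SimpleGraph.dist_eq_one_iff_adj.2 hz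
    have h2 := hc.dist_triangle (u := y) (v := z) (w := w)
    omega

private theorem it_equiv (b : G ≃g G) (w : X) (k : ℕ) (y : X) :
    it G (b w) k (b y) = it G w k y := by
  induction k generalizing y with
  | zero =>
    rw [it_zero, it_zero]
    by_cases h : y = w
    · rw [h, dl_self, dl_self]
    · rw [dl_ne h, dl_ne fun h1 => h (b.injective h1)]
  | succ k ih =>
    rw [it_succ, it_succ]
    symm
    refine Finset.sum_bij (fun z _ => b z) ?_ ?_ ?_ ?_
    · intro z hz
      rw [SimpleGraph.mem_neighborFinset] at hz ⊢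
      exact b.map_adj_iff.2 hz
    · intro z _ z' _ hzz
      exact b.injective hzz
    · intro z hz
      rw [SimpleGraph.mem_neighborFinset] at hz
      refine ⟨b.symm z, ?_, b.apply_symm_apply z⟩
      rw [SimpleGraph.mem_neighborFinset, ← b.map_adj_iff, b.apply_symm_apply]
      exact hz
    · intro z _
      exact (ih z).symm

private noncomputable def gr (lam : ℝ) (w y : X) : ℝ := ∑' k : ℕ, (lam⁻¹) ^ (k + 1) * it G w k y

private theorem term_nn {lam : ℝ} (hl : 0 < lam) (w y : X) (k : ℕ) :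
    0 ≤ (lam⁻¹) ^ (k + 1) * it G w k y :=
  mul_nonneg (by positivity) (it_nn G w k y)

private theorem term_le (Δ : ℕ) (hΔ : ∀ x, G.degree x ≤ Δ) {lam : ℝ} (hl : 0 < lam) (w y : X)
    (k : ℕ) : (lam⁻¹) ^ (k + 1) * it G w k y ≤ lam⁻¹ * ((Δ : ℝ) / lam) ^ k := by
  have h1 : (lam⁻¹) ^ (k + 1) * it G w k y ≤ (lam⁻¹) ^ (k + 1) * (Δ : ℝ) ^ k :=
    mul_le_mul_of_nonneg_left (it_le G Δ hΔ w k y) (by positivity)
  refine h1.trans (le_of_eq ?_)
  rw [pow_succ, div_pow, inv_pow]
  field_simp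

private theorem geo_summable {Δ : ℕ} {lam : ℝ} (hl : (Δ : ℝ) < lam) :
    Summable fun k : ℕ => lam⁻¹ * ((Δ : ℝ) / lam) ^ k := by
  have hp : 0 < lam := lt_of_le_of_lt (Nat.cast_nonneg Δ) hl
  exact (summable_geometric_of_lt_one (by positivity) ((div_lt_one hp).2 hl)).mul_left _

private theorem gr_summable (Δ : ℕ) (hΔ : ∀ x, G.degree x ≤ Δ) {lam : ℝ} (hl : (Δ : ℝ) < lam)
    (w y : X) : Summable fun k : ℕ => (lam⁻¹) ^ (k + 1) * it G w k y := by
  have hp : 0 < lam := lt_of_le_of_lt (Nat.cast_nonneg Δ) hl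
  exact Summable.of_nonneg_of_le (term_nn G hp w y) (term_le G Δ hΔ hp w y) (geo_summable hl)

private theorem gr_eq (Δ : ℕ) (hΔ : ∀ x, G.degree x ≤ Δ) {lam : ℝ} (hl : (Δ : ℝ) < lam)
    (w y : X) : lam * gr G lam w y = dl w y + A G (gr G lam w) y := by
  have hp : 0 < lam := lt_of_le_of_lt (Nat.cast_nonneg Δ) hl
  have hs := gr_summable G Δ hΔ hl w y
  have h1 : A G (gr G lam w) y = ∑' k : ℕ, (lam⁻¹) ^ (k + 1) * it G w (k + 1) y := by
    rw [A]
    unfold gr
    rw [← Summable.tsum_finsetSum fun z _ => gr_summable G Δ hΔ hl w z]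
    refine tsum_congr fun k => ?_
    rw [it_succ, Finset.mul_sum]
  have h2 : lam * gr G lam w y = ∑' k : ℕ, (lam⁻¹) ^ k * it G w k y := by
    rw [gr, ← tsum_mul_left]
    refine tsum_congr fun k => ?_
    rw [pow_succ]
    field_simp
  have hs' : Summable fun k : ℕ => (lam⁻¹) ^ k * it G w k y := by
    refine (hs.mul_left lam).congr fun k => ?_
    rw [pow_succ]
    field_simp
  rw [h2, h1, hs'.tsum_eq_zero_add, pow_zero, one_mul, it_zero]

end

theorem green (G : SimpleGraph X) [G.LocallyFinite] (hc : G.Connected) (Δ : ℕ)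
    (hΔ : ∀ x, G.degree x ≤ Δ) (lam : ℝ) (hl : (Δ : ℝ) < lam) :
    ∃ u : X → X → ℝ, (∀ w y, 0 ≤ u w y) ∧ (∀ w, 0 < u w w) ∧
      (∀ w y, y ≠ w → A G (u w) y = lam * u w y) ∧ (∀ w y, A G (u w) y ≤ lam * u w y) ∧
      (∀ w y, u w y ≤ ((Δ : ℝ) / lam) ^ (G.dist y w) / (lam - Δ)) ∧
      (∀ (b : G ≃g G) (w y : X), u (b w) (b y) = u w y) := by
  have hp : 0 < lam := lt_of_le_of_lt (Nat.cast_nonneg Δ) hl
  refine ⟨gr G lam, fun w y => tsum_nonneg (term_nn G hp w y), fun w => ?_, fun w y hy => ?_,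
    fun w y => ?_, fun w y => ?_, fun b w y => ?_⟩
  · have h1 := (gr_summable G Δ hΔ hl w w).le_tsum 0 fun k _ => term_nn G hp w w k
    rw [it_zero, dl_self, mul_one, zero_add, pow_one] at h1
    exact lt_of_lt_of_le (inv_pos.2 hp) h1
  · rw [gr_eq G Δ hΔ hl, dl_ne hy, zero_add]
  · rw [gr_eq G Δ hΔ hl]
    linarith [dl_nn w y]
  · set d := G.dist y w with hd
    have hs := gr_summable G Δ hΔ hl w y
    have h1 : gr G lam w y = ∑' k : ℕ, (lam⁻¹) ^ (k + d + 1) * it G w (k + d) y := by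
      rw [gr, ← hs.sum_add_tsum_nat_add d, Finset.sum_eq_zero, zero_add]
      intro k hk
      rw [it_eq_zero G hc w k y (Finset.mem_range.1 hk), mul_zero]
    have h2 : ∀ k : ℕ, (lam⁻¹) ^ (k + d + 1) * it G w (k + d) y
        ≤ ((Δ : ℝ) / lam) ^ d * (lam⁻¹ * ((Δ : ℝ) / lam) ^ k) := by
      intro k
      refine (term_le G Δ hΔ hp w y (k + d)).trans (le_of_eq ?_)
      rw [pow_add]
      ring
    have h3 : ∑' k : ℕ, ((Δ : ℝ) / lam) ^ d * (lam⁻¹ * ((Δ : ℝ) / lam) ^ k)
        = ((Δ : ℝ) / lam) ^ d / (lam - Δ) := by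
      rw [tsum_mul_left, tsum_mul_left,
        tsum_geometric_of_lt_one (by positivity) ((div_lt_one hp).2 hl), div_eq_mul_inv]
      congr 1
      have h4 : lam - Δ ≠ 0 := (sub_pos.2 hl).ne'
      have h5 : (1 : ℝ) - Δ / lam ≠ 0 := (sub_pos.2 ((div_lt_one hp).2 hl)).ne'
      field_simp
    rw [h1, ← h3]
    exact Summable.tsum_le_tsum h2 ((summable_nat_add_iff d).2 hs)
      ((geo_summable hl).mul_left _)
  · rw [gr, gr]
    exact tsum_congr fun k => by rw [it_equiv]

end Pool.Agent.Lib.MP_3e27e0_al.CM
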