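import Pool.Agent.Lib.MP_3e27e0_al.CM.Def

/-!
# Project CM: positive eigenfunctions of the adjacency operator and bounded automorphisms
-/

set_option autoImplicit false

namespace Pool.Agent.Lib.MP_3e27e0_al.CM

variable {X : Type*} {G : SimpleGraph X} [G.LocallyFinite] {lam : ℝ} {x0 : X}

theorem Har.nb {h : X → ℝ} (hh : Har G lam x0 h) {x y : X} (hxy : G.Adj x y) :
    h y ≤ lam * h x := by
  rw [← hh.eig x, A]
  exact Finset.single_le_sum (fun i _ => hh.nn i) ((G.mem_neighborFinset x y).2 hxy)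

theorem Har.walk {h : X → ℝ} (hh : Har G lam x0 h) (hl : 1 < lam) {x y : X} (p : G.Walk x y) :
    h y ≤ lam ^ p.length * h x := by
  induction p with
  | nil => simp
  | cons hadj p ih =>
    have h1 := hh.nb hadj
    have h2 : (0 : ℝ) ≤ lam ^ p.length := by positivity
    calc _ ≤ _ := ih
      _ ≤ lam ^ p.length * (lam * _) := mul_le_mul_of_nonneg_left h1 h2
      _ = _ := by rw [SimpleGraph.Walk.length_cons, pow_succ]; ring

theorem Har.harnack {h : X → ℝ} (hh : Har G lam x0 h) (hl : 1 < lam) (hc : G.Connected) (x y : X) :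
    h y ≤ lam ^ (G.dist x y) * h x := by
  obtain ⟨p, hp⟩ := hc.exists_walk_length_eq_dist x y
  rw [← hp]
  exact hh.walk hl p

theorem Har.pos {h : X → ℝ} (hh : Har G lam x0 h) (hl : 1 < lam) (hc : G.Connected) (x : X) :
    0 < h x := by
  have h1 := hh.harnack hl hc x x0
  rw [hh.one] at h1
  by_contra h2
  have h3 : h x = 0 := le_antisymm (not_lt.1 h2) (hh.nn x)
  rw [h3, mul_zero] at h1
  linarith

theorem A_comp (b : G ≃g G) (h : X → ℝ) (x : X) : A G (fun y => h (b y)) x = A G h (b x) := by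
  rw [A, A]
  refine Finset.sum_bij (fun y _ => b y) ?_ ?_ ?_ ?_
  · intro y hy
    rw [SimpleGraph.mem_neighborFinset] at hy ⊢
    exact b.map_adj_iff.2 hy
  · intro y _ y' _ hyy
    exact b.injective hyy
  · intro y hy
    rw [SimpleGraph.mem_neighborFinset] at hy
    refine ⟨b.symm y, ?_, b.apply_symm_apply y⟩
    rw [SimpleGraph.mem_neighborFinset, ← b.map_adj_iff, b.apply_symm_apply]
    exact hy
  · intro y _
    rfl

theorem A_smul (c : ℝ) (h : X → ℝ) (x : X) : A G (fun y => c * h y) x = c * A G h x := by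
  rw [A, A, Finset.mul_sum]

theorem A_add (h k : X → ℝ) (x : X) : A G (fun y => h y + k y) x = A G h x + A G k x := by
  rw [A, A, A, Finset.sum_add_distrib]

/-- The normalised composition with an automorphism. -/
theorem Har.comp {h : X → ℝ} (hh : Har G lam x0 h) (hl : 1 < lam) (hc : G.Connected) (b : G ≃g G) :
    Har G lam x0 (fun x => (h (b x0))⁻¹ * h (b x)) := by
  have hp := hh.pos hl hc (b x0)
  refine ⟨fun x => mul_nonneg (inv_nonneg.2 hp.le) (hh.nn _), fun x => ?_, inv_mul_cancel₀ hp.ne'⟩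
  rw [A_smul, A_comp, hh.eig]
  ring

theorem har_convex : Convex ℝ {h : X → ℝ | Har G lam x0 h} := by
  intro h hh k hk s t hs ht hst
  refine ⟨fun x => ?_, fun x => ?_, ?_⟩
  · simp only [Pi.add_apply, Pi.smul_apply, smul_eq_mul]
    exact add_nonneg (mul_nonneg hs (hh.nn x)) (mul_nonneg ht (hk.nn x))
  · have e : (s • h + t • k : X → ℝ) = fun y => s * h y + t * k y := by
      funext y
      simp
    rw [e, A_add (fun y => s * h y) (fun y => t * k y), A_smul, A_smul, hh.eig, hk.eig]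
    ring
  · simp only [Pi.add_apply, Pi.smul_apply, smul_eq_mul]
    rw [hh.one, hk.one]
    linarith

theorem har_closed : IsClosed {h : X → ℝ | Har G lam x0 h} := by
  have e : {h : X → ℝ | Har G lam x0 h} =
      (⋂ x, {h : X → ℝ | 0 ≤ h x}) ∩ (⋂ x, {h : X → ℝ | A G h x = lam * h x}) ∩
        {h : X → ℝ | h x0 = 1} := by
    ext h
    simp only [Set.mem_ofPred_eq, Set.mem_inter_iff, Set.mem_iInter]
    exact ⟨fun hh => ⟨⟨hh.nn, hh.eig⟩, hh.one⟩, fun hh => ⟨hh.1.1, hh.1.2, hh.2⟩⟩
  rw [e]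
  refine IsClosed.inter (IsClosed.inter ?_ ?_) ?_
  · exact isClosed_iInter fun x => isClosed_le continuous_const (continuous_apply x)
  · refine isClosed_iInter fun x => isClosed_eq ?_ (continuous_const.mul (continuous_apply x))
    exact continuous_finsetSum _ fun y _ => continuous_apply y
  · exact isClosed_eq (continuous_apply x0) continuous_const

theorem har_compact (hl : 1 < lam) (hc : G.Connected) :
    IsCompact {h : X → ℝ | Har G lam x0 h} := by
  have h1 : IsCompact (Set.pi Set.univ fun x : X => Set.Icc (0 : ℝ) (lam ^ (G.dist x0 x))) :=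
    isCompact_univ_pi fun x => isCompact_Icc
  refine h1.of_isClosed_subset har_closed ?_
  intro h hh x _
  have h2 := hh.harnack hl hc x0 x
  rw [hh.one, mul_one] at h2
  exact ⟨hh.nn x, h2⟩

/-- Extreme eigenfunctions are multiplicative along bounded automorphisms. -/
theorem ext_mul (hl : 1 < lam) (hc : G.Connected) {h : X → ℝ}
    (hh : h ∈ Set.extremePoints ℝ {h : X → ℝ | Har G lam x0 h}) {b : G ≃g G} (hb : BddAut G b)
    (x : X) : h (b x) = h (b x0) * h x := by
  obtain ⟨D, hD⟩ := hb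
  have hK : Har G lam x0 h := hh.1
  have hp := hK.pos hl hc (b x0)
  set k : X → ℝ := fun x => (h (b x0))⁻¹ * h (b x) with hk
  have hkK : Har G lam x0 k := hK.comp hl hc b
  set C : ℝ := (h (b x0))⁻¹ * lam ^ D with hC
  have hCp : 0 < C := by positivity
  have hkC : ∀ x, k x ≤ C * h x := by
    intro y
    have h1 := hK.harnack hl hc y (b y)
    have h2 : lam ^ (G.dist y (b y)) ≤ lam ^ D := pow_le_pow_right₀ hl.le (hD y)
    have h3 : h (b y) ≤ lam ^ D * h y := h1.trans (mul_le_mul_of_nonneg_right h2 (hK.nn y))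
    calc k y = (h (b x0))⁻¹ * h (b y) := rfl
      _ ≤ (h (b x0))⁻¹ * (lam ^ D * h y) := mul_le_mul_of_nonneg_left h3 (inv_nonneg.2 hp.le)
      _ = C * h y := by rw [hC]; ring
  set t : ℝ := (C + 1)⁻¹ with ht
  have ht0 : 0 < t := by positivity
  have ht1 : t < 1 := by
    rw [ht]
    exact inv_lt_one_of_one_lt₀ (by linarith)
  have htC : t * C ≤ 1 := by
    rw [ht, inv_mul_le_iff₀ (by linarith)]
    linarith
  have h1t : 0 < 1 - t := by linarith
  set m : X → ℝ := fun x => (1 - t)⁻¹ * (h x + (-t) * k x) with hm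
  have hmK : Har G lam x0 m := by
    refine ⟨fun y => ?_, fun y => ?_, ?_⟩
    · refine mul_nonneg (inv_nonneg.2 h1t.le) ?_
      have h4 := mul_le_mul_of_nonneg_left (hkC y) ht0.le
      have h5 := mul_le_mul_of_nonneg_right htC (hK.nn y)
      linarith
    · rw [hm, A_smul, A_add h (fun y => (-t) * k y), A_smul, hK.eig, hkK.eig]
      ring
    · rw [hm]
      simp only
      rw [hK.one, hkK.one, mul_one]
      exact inv_mul_cancel₀ (by linarith)
  have hseg : h ∈ openSegment ℝ k m := by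
    refine ⟨t, 1 - t, ht0, h1t, by ring, ?_⟩
    funext y
    have h7 : (1 - t) * ((1 - t)⁻¹ * (h y + (-t) * k y)) = h y + (-t) * k y := by
      rw [← mul_assoc, mul_inv_cancel₀ h1t.ne', one_mul]
    change t * k y + (1 - t) * ((1 - t)⁻¹ * (h y + (-t) * k y)) = h y
    rw [h7]
    ring
  have hke : k = h := hh.2 hkK hmK hseg
  have h6 : k x = h x := congrFun hke x
  rw [hk] at h6
  simp only at h6
  rw [← h6, ← mul_assoc, mul_inv_cancel₀ hp.ne', one_mul]

/-- Krein - Milman: an automorphism which fixes the extreme eigenfunctions fixes all of them. -/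
theorem inv_of_ext (hl : 1 < lam) (hc : G.Connected) (b : G ≃g G)
    (hb : ∀ h ∈ Set.extremePoints ℝ {h : X → ℝ | Har G lam x0 h}, ∀ x, h (b x) = h x)
    {h : X → ℝ} (hh : Har G lam x0 h) (x : X) : h (b x) = h x := by
  have hKM := closure_convexHull_extremePoints (har_compact (G := G) (x0 := x0) hl hc)
    (har_convex (G := G) (lam := lam) (x0 := x0))
  have hcl : IsClosed {k : X → ℝ | k (b x) = k x} :=
    isClosed_eq (continuous_apply _) (continuous_apply _)
  have hcv : Convex ℝ {k : X → ℝ | k (b x) = k x} := by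
    intro k hk m hm s t _ _ _
    simp only [Set.mem_ofPred_eq, Pi.add_apply, Pi.smul_apply] at hk hm ⊢
    rw [hk, hm]
  have h1 : closure (convexHull ℝ (Set.extremePoints ℝ {h : X → ℝ | Har G lam x0 h})) ⊆
      {k : X → ℝ | k (b x) = k x} :=
    closure_minimal (convexHull_min (fun k hk => hb k hk x) hcv) hcl
  rw [hKM] at h1
  exact h1 hh

/-- Bounded automorphisms which fix all positive eigenfunctions. -/
structure InP (G : SimpleGraph X) [G.LocallyFinite] (lam : ℝ) (x0 : X) (b : G ≃g G) : Prop where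
  bdd : BddAut G b
  inv : ∀ h, Har G lam x0 h → ∀ x, h (b x) = h x

omit [G.LocallyFinite] in
theorem dist_aut (b : G ≃g G) (hc : G.Connected) (x y : X) : G.dist (b x) (b y) = G.dist x y := by
  have key : ∀ (c : G ≃g G) (u v : X), G.dist (c u) (c v) ≤ G.dist u v := by
    intro c u v
    obtain ⟨p, hp⟩ := hc.exists_walk_length_eq_dist u v
    rw [← hp, ← SimpleGraph.Walk.length_map (c : G →g G) p]
    exact SimpleGraph.dist_le _
  refine le_antisymm (key b x y) ?_
  have h1 := key b.symm (b x) (b y)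
  rwa [b.symm_apply_apply, b.symm_apply_apply] at h1

omit [G.LocallyFinite] in
theorem BddAut.mul {b c : G ≃g G} (hb : BddAut G b) (hc : BddAut G c) (hcon : G.Connected) :
    BddAut G (b * c) := by
  obtain ⟨D, hD⟩ := hb
  obtain ⟨E, hE⟩ := hc
  refine ⟨E + D, fun x => ?_⟩
  have h1 := hcon.dist_triangle (u := x) (v := c x) (w := b (c x))
  exact h1.trans (add_le_add (hE x) (hD (c x)))

omit [G.LocallyFinite] in
theorem BddAut.inv {b : G ≃g G} (hb : BddAut G b) : BddAut G b⁻¹ := by
  obtain ⟨D, hD⟩ := hb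
  refine ⟨D, fun x => ?_⟩
  have h1 := hD (b⁻¹ x)
  have h2 : b (b⁻¹ x) = x := b.apply_symm_apply x
  rw [h2, SimpleGraph.dist_comm] at h1
  exact h1

omit [G.LocallyFinite] in
theorem BddAut.conj {b : G ≃g G} (hb : BddAut G b) (g : G ≃g G) (hcon : G.Connected) :
    BddAut G (g * b * g⁻¹) := by
  obtain ⟨D, hD⟩ := hb
  refine ⟨D, fun x => ?_⟩
  have h1 := hD (g⁻¹ x)
  rw [← dist_aut g hcon] at h1
  have h2 : g (g⁻¹ x) = x := g.apply_symm_apply x
  rw [h2] at h1
  exact h1

omit [G.LocallyFinite] in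
theorem BddAut.pow {b : G ≃g G} (hb : BddAut G b) (hcon : G.Connected) (n : ℕ) :
    BddAut G (b ^ n) := by
  induction n with
  | zero => exact ⟨0, fun x => by simp [SimpleGraph.dist_self]⟩
  | succ n ih => rw [pow_succ]; exact ih.mul hb hcon

theorem InP.one : InP G lam x0 1 := ⟨⟨0, fun x => by simp [SimpleGraph.dist_self]⟩, fun _ _ _ => rfl⟩

theorem InP.mul {b c : G ≃g G} (hb : InP G lam x0 b) (hc : InP G lam x0 c) (hcon : G.Connected) :
    InP G lam x0 (b * c) :=
  ⟨hb.bdd.mul hc.bdd hcon, fun h hh x => (hb.inv h hh (c x)).trans (hc.inv h hh x)⟩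

theorem InP.inv' {b : G ≃g G} (hb : InP G lam x0 b) : InP G lam x0 b⁻¹ := by
  refine ⟨hb.bdd.inv, fun h hh x => ?_⟩
  have h1 := hb.inv h hh (b⁻¹ x)
  have h2 : b (b⁻¹ x) = x := b.apply_symm_apply x
  rw [h2] at h1
  exact h1.symm

theorem InP.conj {b : G ≃g G} (hb : InP G lam x0 b) (g : G ≃g G) (hl : 1 < lam)
    (hcon : G.Connected) : InP G lam x0 (g * b * g⁻¹) := by
  refine ⟨hb.bdd.conj g hcon, fun h hh x => ?_⟩
  have h1 := hb.inv _ (hh.comp hl hcon g) (g⁻¹ x)
  have hp := hh.pos hl hcon (g x0)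
  have h2 := mul_left_cancel₀ (inv_ne_zero hp.ne') h1
  have h3 : g (g⁻¹ x) = x := g.apply_symm_apply x
  rw [h3] at h2
  exact h2

/-- Two bounded automorphisms with the same value at `x0` are equal modulo `InP`. -/
theorem inP_of_eq (hl : 1 < lam) (hcon : G.Connected) {b c : G ≃g G} (hb : BddAut G b)
    (hc : BddAut G c) (hbc : b x0 = c x0) : InP G lam x0 (b * c⁻¹) := by
  refine ⟨hb.mul hc.inv hcon, fun h hh x => inv_of_ext hl hcon _ (fun k hk y => ?_) hh x⟩
  have h1 := ext_mul hl hcon hk hb (c⁻¹ y)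
  have h2 := ext_mul hl hcon hk hc (c⁻¹ y)
  have h3 : c (c⁻¹ y) = y := c.apply_symm_apply y
  rw [h3] at h2
  rw [h2, ← hbc, ← h1]
  rfl

/-- A bounded automorphism with a finite orbit is in `InP`. -/
theorem inP_of_fix (hl : 1 < lam) (hcon : G.Connected) {b : G ≃g G} (hb : BddAut G b)
    {n : ℕ} (hn : n ≠ 0) {x : X} (hx : (b ^ n) x = x) : InP G lam x0 b := by
  refine ⟨hb, fun h hh y => inv_of_ext hl hcon _ (fun k hk y => ?_) hh y⟩
  have hK : Har G lam x0 k := hk.1
  have h1 : ∀ m : ℕ, k ((b ^ m) x) = k (b x0) ^ m * k x := by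
    intro m
    induction m with
    | zero => simp
    | succ m ih =>
      rw [pow_succ', pow_succ']
      have h2 := ext_mul hl hcon hk hb ((b ^ m) x)
      rw [ih] at h2
      rw [mul_assoc]
      exact h2
  have h2 := h1 n
  rw [hx] at h2
  have hp := hK.pos hl hcon x
  have h3 : k (b x0) ^ n = 1 := by
    have h4 : (k (b x0) ^ n - 1) * k x = 0 := by rw [sub_mul, one_mul, ← h2, sub_self]
    rcases mul_eq_zero.1 h4 with h5 | h5
    · linarith
    · exact absurd h5 hp.ne'
  have h4 : k (b x0) = 1 := (pow_eq_one_iff_of_nonneg (hK.nn _) hn).1 h3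
  rw [ext_mul hl hcon hk hb y, h4, one_mul]

end Pool.Agent.Lib.MP_3e27e0_al.CM
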