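import Pool.Agent.Lib.MP_3e27e0_al.CM.Green
import Pool.Agent.Lib.MP_3e27e0_al.CM.Har

/-!
# Project CM: an eigenfunction which grows along an automorphism

With `g n = u (f^n x) x` (the Green function) one has `g n ≤ C θ^n`, `θ = (Δ/lam)^κ < 1`, so
`g (n - 1) ≥ g n / θ'` for infinitely many `n`; the functions `u (f^n x) / u (f^n x) x0` over these `n`
are between `0` and `lam ^ dist x0 y` at `y` (Harnack); a pointwise limit along an ultrafilter is in
`Har`, since the points `f^n x` leave every finite set, and `h (f x) ≥ h x / θ'`.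
-/

set_option autoImplicit false

namespace Pool.Agent.Lib.MP_3e27e0_al.CM

open Filter Topology

variable {X : Type*}

/-- Harnack for nonnegative superharmonic functions. -/
private theorem lm_walk (G : SimpleGraph X) [G.LocallyFinite] {lam : ℝ} (hl : 1 < lam) {v : X → ℝ}
    (h0 : ∀ y, 0 ≤ v y) (h1 : ∀ y, A G v y ≤ lam * v y) {y z : X} (p : G.Walk y z) :
    v z ≤ lam ^ p.length * v y := by
  induction p with
  | nil => simp
  | @cons a b c hadj p ih =>
    have h2 : v b ≤ lam * v a := by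
      refine le_trans ?_ (h1 a)
      rw [A]
      exact Finset.single_le_sum (fun i _ => h0 i) ((G.mem_neighborFinset a b).2 hadj)
    have h3 : (0 : ℝ) ≤ lam ^ p.length := by positivity
    calc v c ≤ lam ^ p.length * v b := ih
      _ ≤ lam ^ p.length * (lam * v a) := mul_le_mul_of_nonneg_left h2 h3
      _ = _ := by rw [SimpleGraph.Walk.length_cons, pow_succ]; ring

private theorem lm_har (G : SimpleGraph X) [G.LocallyFinite] (hc : G.Connected) {lam : ℝ}
    (hl : 1 < lam) {v : X → ℝ} (h0 : ∀ y, 0 ≤ v y) (h1 : ∀ y, A G v y ≤ lam * v y) (y z : X) :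
    v z ≤ lam ^ (G.dist y z) * v y := by
  obtain ⟨p, hp⟩ := hc.exists_walk_length_eq_dist y z
  rw [← hp]
  exact lm_walk G hl h0 h1 p

/-- A sequence with geometric decay decreases infinitely often by a fixed factor. -/
private theorem lm_seq (g : ℕ → ℝ) (hg : ∀ n, 0 < g n) (θ C : ℝ) (hθ : 0 < θ) (hθ1 : θ < 1)
    (K : ℕ) (hK : 0 < K) (hb : ∀ m : ℕ, g (K * m) ≤ C * θ ^ m) :
    ∃ c : ℝ, 0 < c ∧ c < 1 ∧ ∃ᶠ n in atTop, g (n + 1) ≤ c * g n := by
  have hKr : (1 : ℝ) ≤ K := by exact_mod_cast hK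
  set a : ℝ := (1 - θ) / (2 * K) with ha
  have ha0 : 0 < a := by
    apply div_pos <;> linarith
  have ha1 : a < 1 / 2 := by
    rw [ha, div_lt_iff₀ (by linarith)]
    nlinarith
  have hKa : (K : ℝ) * a = (1 - θ) / 2 := by
    rw [ha]
    field_simp
  refine ⟨1 - a, by linarith, by linarith, ?_⟩
  by_contra hcon
  rw [not_frequently] at hcon
  obtain ⟨N, hN⟩ := eventually_atTop.1 hcon
  have hlow : ∀ k : ℕ, (1 - a) ^ k * g N ≤ g (N + k) := by
    intro k
    induction k with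
    | zero => simp
    | succ k ih =>
      have h1 := hN (N + k) (by omega)
      rw [not_le] at h1
      have h2 : (0 : ℝ) ≤ 1 - a := by linarith
      calc (1 - a) ^ (k + 1) * g N = (1 - a) * ((1 - a) ^ k * g N) := by ring
        _ ≤ (1 - a) * g (N + k) := mul_le_mul_of_nonneg_left ih h2
        _ ≤ g (N + (k + 1)) := h1.le
  have hbern : (1 + θ) / 2 ≤ (1 - a) ^ K := by
    have h1 := one_add_mul_le_pow (a := -a) (by linarith) K
    have h2 : (1 : ℝ) + K * (-a) = (1 + θ) / 2 := by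
      rw [mul_neg, hKa]
      ring
    rw [h2] at h1
    have h3 : (1 : ℝ) + -a = 1 - a := by ring
    rwa [h3] at h1
  set q : ℝ := ((1 + θ) / 2) / θ with hq
  have hq1 : 1 < q := by
    rw [hq, lt_div_iff₀ hθ]
    linarith
  have hbd : ∀ m : ℕ, N ≤ m → q ^ m * g N ≤ C := by
    intro m hm
    have h1 : N ≤ K * m := hm.trans (Nat.le_mul_of_pos_left m hK)
    obtain ⟨k, hk⟩ := Nat.exists_eq_add_of_le h1
    have h2 := hlow k
    rw [← hk] at h2
    have h3 : (1 - a) ^ (K * m) ≤ (1 - a) ^ k :=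
      pow_le_pow_of_le_one (by linarith) (by linarith) (by omega)
    have h4 : ((1 + θ) / 2) ^ m ≤ (1 - a) ^ (K * m) := by
      rw [pow_mul]
      exact pow_le_pow_left₀ (by linarith) hbern m
    have h5 : ((1 + θ) / 2) ^ m * g N ≤ C * θ ^ m :=
      ((mul_le_mul_of_nonneg_right (h4.trans h3) (hg N).le).trans h2).trans (hb m)
    have h6 : q ^ m * g N = (((1 + θ) / 2) ^ m * g N) / θ ^ m := by
      rw [hq, div_pow]
      ring
    rw [h6, div_le_iff₀ (by positivity)]
    exact h5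
  have ht := (tendsto_pow_atTop_atTop_of_one_lt hq1).atTop_mul_const (hg N)
  obtain ⟨m, hm, hm2⟩ := ((ht.eventually_gt_atTop C).and (eventually_ge_atTop N)).exists
  exact absurd (hbd m hm2) (not_le.2 hm)

theorem lemM (G : SimpleGraph X) [G.LocallyFinite] (hc : G.Connected) (Δ : ℕ)
    (hΔ : ∀ x, G.degree x ≤ Δ) (lam : ℝ) (hl : (Δ : ℝ) < lam) (hl1 : 1 < lam) (x0 x : X) (f : G ≃g G)
    (kap : ℝ) (hk : 0 < kap) (hf : ∀ n : ℕ, kap * n ≤ G.dist x ((f ^ n) x) + 1) :
    ∃ h : X → ℝ, Har G lam x0 h ∧ h x < h (f x) := by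
  obtain ⟨u, u0, u1, u2, u3, u4, u5⟩ := green G hc Δ hΔ lam hl
  have hlam : 0 < lam := by linarith
  have upos : ∀ w y, 0 < u w y := by
    intro w y
    have h1 := lm_har G hc hl1 (u0 w) (u3 w) y w
    have h2 := u1 w
    by_contra h3
    have h4 : u w y = 0 := le_antisymm (not_lt.1 h3) (u0 w y)
    rw [h4, mul_zero] at h1
    linarith
  -- the sequence g
  set θ : ℝ := max ((Δ : ℝ) / lam) (1 / 2) with hθ
  have hθ0 : 0 < θ := lt_of_lt_of_le (by norm_num) (le_max_right _ _)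
  have hθ1 : θ < 1 := by
    rw [hθ, max_lt_iff]
    refine ⟨?_, by norm_num⟩
    rw [div_lt_one hlam]
    exact hl
  obtain ⟨K, hK⟩ := exists_nat_gt (1 / kap)
  have hK0 : 0 < K := by
    have h1 : (0 : ℝ) < K := lt_trans (by positivity) hK
    exact_mod_cast h1
  have hKk : 1 ≤ kap * K := by
    rw [div_lt_iff₀ hk] at hK
    linarith
  have hdist : ∀ m : ℕ, m ≤ G.dist x ((f ^ (K * m)) x) + 1 := by
    intro m
    have h1 := hf (K * m)
    have h2 : (m : ℝ) ≤ kap * ((K * m : ℕ) : ℝ) := by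
      push_cast
      have h3 := mul_le_mul_of_nonneg_right hKk (Nat.cast_nonneg (α := ℝ) m)
      linarith
    have h3 : (m : ℝ) ≤ ((G.dist x ((f ^ (K * m)) x) + 1 : ℕ) : ℝ) := by
      push_cast
      linarith
    exact_mod_cast h3
  obtain ⟨c, hc0, hc1, hfr⟩ := lm_seq (fun n => u ((f ^ n) x) x) (fun n => upos _ _) θ
    (θ⁻¹ / (lam - Δ)) hθ0 hθ1 K hK0 (by
      intro m
      have h1 := u4 ((f ^ (K * m)) x) x
      have h2 : ((Δ : ℝ) / lam) ^ (G.dist x ((f ^ (K * m)) x)) ≤ θ ^ (G.dist x ((f ^ (K * m)) x)) :=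
        pow_le_pow_left₀ (by positivity) (le_max_left _ _) _
      have h3 : θ ^ (G.dist x ((f ^ (K * m)) x)) * θ ≤ θ ^ m := by
        rw [← pow_succ]
        exact pow_le_pow_of_le_one hθ0.le hθ1.le (hdist m)
      have h4 : θ ^ (G.dist x ((f ^ (K * m)) x)) ≤ θ⁻¹ * θ ^ m := by
        rw [le_inv_mul_iff₀ hθ0, mul_comm]
        exact h3
      have h5 : 0 < lam - Δ := by linarith
      calc u ((f ^ (K * m)) x) x ≤ _ := h1
        _ ≤ (θ⁻¹ * θ ^ m) / (lam - Δ) := div_le_div_of_nonneg_right (h2.trans h4) h5.le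
        _ = θ⁻¹ / (lam - Δ) * θ ^ m := by ring)
  -- the ultrafilter
  have hne : (atTop ⊓ 𝓟 {n : ℕ | u ((f ^ (n + 1)) x) x ≤ c * u ((f ^ n) x) x}).NeBot :=
    frequently_mem_iff_neBot.1 hfr
  set U : Ultrafilter ℕ :=
    Ultrafilter.of (atTop ⊓ 𝓟 {n : ℕ | u ((f ^ (n + 1)) x) x ≤ c * u ((f ^ n) x) x}) with hU
  have hUle : (U : Filter ℕ) ≤
      atTop ⊓ 𝓟 {n : ℕ | u ((f ^ (n + 1)) x) x ≤ c * u ((f ^ n) x) x} := Ultrafilter.of_le _
  have hUat : (U : Filter ℕ) ≤ atTop := hUle.trans inf_le_left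
  have hUs : ∀ᶠ n in (U : Filter ℕ), u ((f ^ (n + 1)) x) x ≤ c * u ((f ^ n) x) x :=
    (hUle.trans inf_le_right) (mem_principal_self _)
  set φ : ℕ → X → ℝ := fun n y => u ((f ^ (n + 1)) x) y / u ((f ^ (n + 1)) x) x0 with hφ
  have hcomp : IsCompact (Set.pi Set.univ fun y : X => Set.Icc (0 : ℝ) (lam ^ (G.dist x0 y))) :=
    isCompact_univ_pi fun y => isCompact_Icc
  have hmem : ∀ n, φ n ∈ Set.pi Set.univ fun y : X => Set.Icc (0 : ℝ) (lam ^ (G.dist x0 y)) := by
    intro n y _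
    have h1 := upos ((f ^ (n + 1)) x) x0
    refine ⟨div_nonneg (u0 _ _) (u0 _ _), ?_⟩
    change u ((f ^ (n + 1)) x) y / u ((f ^ (n + 1)) x) x0 ≤ _
    rw [div_le_iff₀ h1]
    exact lm_har G hc hl1 (u0 _) (u3 _) x0 y
  obtain ⟨h, _, hlim⟩ := hcomp.ultrafilter_le_nhds (U.map φ) (by
    rw [Ultrafilter.coe_map, le_principal_iff]
    exact Filter.mem_map.2 (Filter.univ_mem' hmem))
  have hten : Tendsto φ (U : Filter ℕ) (𝓝 h) := hlim
  have hpt : ∀ y, Tendsto (fun n => φ n y) (U : Filter ℕ) (𝓝 (h y)) := fun y =>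
    (tendsto_pi_nhds.1 hten) y
  have hHar : Har G lam x0 h := by
    refine ⟨fun y => ?_, fun y => ?_, ?_⟩
    · exact ge_of_tendsto' (hpt y) fun n => ((hmem n) y (Set.mem_univ y)).1
    · have t1 : Tendsto (fun n => A G (φ n) y) (U : Filter ℕ) (𝓝 (A G h y)) := by
        unfold A
        exact tendsto_finsetSum _ fun z _ => hpt z
      have t2 : Tendsto (fun n => lam * φ n y) (U : Filter ℕ) (𝓝 (lam * h y)) :=
        (hpt y).const_mul lam
      refine tendsto_nhds_unique_of_eventuallyEq t1 t2 ?_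
      have h1 : ∀ᶠ n : ℕ in atTop, y ≠ (f ^ (n + 1)) x := by
        obtain ⟨M, hM⟩ := exists_nat_gt (((G.dist x y : ℝ) + 1) / kap)
        rw [eventually_atTop]
        refine ⟨M, fun n hn hy => ?_⟩
        have h2 := hf (n + 1)
        rw [← hy] at h2
        rw [div_lt_iff₀ hk] at hM
        have h3 : (M : ℝ) ≤ ((n + 1 : ℕ) : ℝ) := by
          exact_mod_cast hn.trans (Nat.le_succ n)
        have h4 : (M : ℝ) * kap ≤ kap * ((n + 1 : ℕ) : ℝ) := by
          rw [mul_comm]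
          exact mul_le_mul_of_nonneg_left h3 hk.le
        linarith
      filter_upwards [hUat h1] with n hn
      have h2 := u2 ((f ^ (n + 1)) x) y hn
      have h3 : φ n = fun z => (u ((f ^ (n + 1)) x) x0)⁻¹ * u ((f ^ (n + 1)) x) z := by
        funext z
        rw [hφ]
        simp only
        rw [div_eq_mul_inv, mul_comm]
      rw [h3, A_smul, h2]
      ring
    · have h1 : Tendsto (fun _ : ℕ => (1 : ℝ)) (U : Filter ℕ) (𝓝 (h x0)) := by
        refine (hpt x0).congr fun n => ?_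
        exact div_self (upos _ _).ne'
      exact (tendsto_nhds_unique h1 tendsto_const_nhds)
  refine ⟨h, hHar, ?_⟩
  have hle : h x ≤ c * h (f x) := by
    refine le_of_tendsto_of_tendsto (hpt x) ((hpt (f x)).const_mul c) ?_
    filter_upwards [hUs] with n hn
    have h1 : u ((f ^ (n + 1)) x) (f x) = u ((f ^ n) x) x := by
      have h2 := u5 f ((f ^ n) x) x
      have h3 : (f ^ (n + 1)) x = f ((f ^ n) x) := by
        rw [pow_succ']
        rfl
      rw [h3]
      exact h2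
    change u ((f ^ (n + 1)) x) x / u ((f ^ (n + 1)) x) x0 ≤
      c * (u ((f ^ (n + 1)) x) (f x) / u ((f ^ (n + 1)) x) x0)
    rw [h1, ← mul_div_assoc]
    exact div_le_div_of_nonneg_right hn (u0 _ _)
  have hp := hHar.pos hl1 hc (f x)
  nlinarith

end Pool.Agent.Lib.MP_3e27e0_al.CM
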