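import Pool.Agent.Lib.MP_3e27e0_al.CM.Har
import Pool.Agent.Lib.MP_3e27e0_al.CM.LemM

/-!
# Project CM: the general theorem
-/

set_option autoImplicit false

namespace Pool.Agent.Lib.MP_3e27e0_al.CM

variable {X : Type*} {G : SimpleGraph X} {Γ : Type*} [Group Γ] [MulAction Γ X]

/-- The automorphism of the graph given by an element of the group. -/
def Geometric.aut (hg : Geometric Γ X G) : Γ →* (G ≃g G) where
  toFun γ := ⟨MulAction.toPerm γ, fun {a b} => hg.adj γ a b⟩
  map_one' := by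
    ext x
    exact one_smul Γ x
  map_mul' := by
    intro a b
    ext x
    exact mul_smul a b x

@[simp] theorem Geometric.aut_apply (hg : Geometric Γ X G) (γ : Γ) (x : X) : hg.aut γ x = γ • x := rfl

theorem Geometric.dist_smul (hg : Geometric Γ X G) (hc : G.Connected) (γ : Γ) (x y : X) :
    G.dist (γ • x) (γ • y) = G.dist x y := dist_aut (hg.aut γ) hc x y

theorem ball_finite [G.LocallyFinite] (hc : G.Connected) (x : X) (n : ℕ) :
    {y | G.dist x y ≤ n}.Finite := by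
  induction n with
  | zero =>
    refine (Set.finite_singleton x).subset ?_
    intro y hy
    have h1 : G.dist x y = 0 := Nat.le_zero.1 hy
    exact ((hc.dist_eq_zero_iff).1 h1).symm
  | succ n ih =>
    have h1 : (⋃ w ∈ {y | G.dist x y ≤ n}, G.neighborSet w).Finite :=
      ih.biUnion fun w _ => Set.toFinite _
    refine (ih.union h1).subset ?_
    intro y hy
    obtain ⟨p, hp⟩ := hc.exists_walk_length_eq_dist y x
    cases p with
    | nil =>
      left
      simp [SimpleGraph.dist_self]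
    | @cons _ w _ hadj q =>
      right
      rw [Set.mem_iUnion₂]
      refine ⟨w, ?_, hadj.symm⟩
      have h2 : G.dist w x ≤ q.length := SimpleGraph.dist_le q
      rw [SimpleGraph.Walk.length_cons, SimpleGraph.dist_comm] at hp
      have h3 : G.dist x y ≤ n + 1 := hy
      rw [SimpleGraph.dist_comm] at h2
      change G.dist x w ≤ n
      omega

/-- Every vertex is a translate of the chosen representative of its orbit. -/
theorem exists_out (x : X) : ∃ γ : Γ,
    γ • (Quotient.out (Quotient.mk (MulAction.orbitRel Γ X) x)) = x := by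
  have h1 : (MulAction.orbitRel Γ X).r (Quotient.out (Quotient.mk (MulAction.orbitRel Γ X) x)) x :=
    Quotient.mk_out x
  have h2 : (Quotient.out (Quotient.mk (MulAction.orbitRel Γ X) x)) ∈ MulAction.orbit Γ x := h1
  obtain ⟨γ, hγ⟩ := h2
  refine ⟨γ⁻¹, ?_⟩
  rw [← hγ]
  exact inv_smul_smul γ x

theorem Geometric.degree (hg : Geometric Γ X G) [G.LocallyFinite] : ∃ Δ : ℕ, ∀ x, G.degree x ≤ Δ := by
  classical
  have := hg.cof
  have := Fintype.ofFinite (MulAction.orbitRel.Quotient Γ X)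
  refine ⟨Finset.univ.sup fun q : MulAction.orbitRel.Quotient Γ X => G.degree (Quotient.out q),
    fun x => ?_⟩
  obtain ⟨γ, hγ⟩ := exists_out (Γ := Γ) x
  have h1 : ∀ y, A G (fun _ => 1) y = (G.degree y : ℝ) := by
    intro y
    rw [A, Finset.sum_const, nsmul_eq_mul, mul_one, SimpleGraph.card_neighborFinset_eq_degree]
  have h2 := A_comp (hg.aut γ) (fun _ => (1 : ℝ))
    (Quotient.out (Quotient.mk (MulAction.orbitRel Γ X) x))
  rw [h1, h1, hg.aut_apply, hγ] at h2
  have h3 : G.degree (Quotient.out (Quotient.mk (MulAction.orbitRel Γ X) x)) = G.degree x := by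
    exact_mod_cast h2
  rw [← h3]
  exact Finset.le_sup (f := fun q : MulAction.orbitRel.Quotient Γ X => G.degree (Quotient.out q))
    (Finset.mem_univ _)

theorem Geometric.cofd (hg : Geometric Γ X G) (hc : G.Connected) (x : X) : ∃ ρ : ℕ, ∀ y, ∃ γ : Γ,
    G.dist (γ • x) y ≤ ρ := by
  classical
  have := hg.cof
  have := Fintype.ofFinite (MulAction.orbitRel.Quotient Γ X)
  refine ⟨Finset.univ.sup fun q : MulAction.orbitRel.Quotient Γ X => G.dist x (Quotient.out q),
    fun y => ?_⟩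
  obtain ⟨γ, hγ⟩ := exists_out (Γ := Γ) y
  refine ⟨γ, ?_⟩
  conv_lhs => rw [← hγ, hg.dist_smul hc]
  exact Finset.le_sup (f := fun q : MulAction.orbitRel.Quotient Γ X => G.dist x (Quotient.out q))
    (Finset.mem_univ _)

theorem Geometric.finite (hg : Geometric Γ X G) [G.LocallyFinite] (hc : G.Connected) (x : X) (n : ℕ) :
    {γ : Γ | G.dist x (γ • x) ≤ n}.Finite := by
  have h1 := ball_finite (G := G) hc x n
  have h2 : ((fun γ : Γ => γ • x) ⁻¹' {y | G.dist x y ≤ n}).Finite := by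
    refine h1.preimage' fun y _ => ?_
    by_cases h : ∃ γ0 : Γ, γ0 • x = y
    · obtain ⟨γ0, hγ0⟩ := h
      refine ((hg.fin x).image fun s => γ0 * s).subset ?_
      intro γ hγ
      have h3 : γ • x = y := hγ
      refine ⟨γ0⁻¹ * γ, ?_, by simp⟩
      change (γ0⁻¹ * γ) • x = x
      rw [mul_smul, h3, ← hγ0, inv_smul_smul]
    · refine Set.finite_empty.subset ?_
      intro γ hγ
      exact h ⟨γ, hγ⟩
  exact h2

/-- Elements as products. -/
theorem Geometric.word (hg : Geometric Γ X G) (hc : G.Connected) (x : X) :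
    ∃ R : ℕ, ∀ (Q : ℕ → Γ → Prop), (∀ γ, G.dist x (γ • x) ≤ R → Q 0 γ) →
      (∀ n γ s, Q n γ → G.dist x (s • x) ≤ R → Q (n + 1) (γ * s)) → (∀ n γ, Q n γ → Q (n + 1) γ) →
      ∀ γ, Q (G.dist x (γ • x)) γ := by
  obtain ⟨ρ, hρ⟩ := hg.cofd hc x
  refine ⟨2 * ρ + 1, fun Q h0 h1 h2 γ => ?_⟩
  have key : ∀ n : ℕ, ∀ y, G.dist x y ≤ n → ∀ γ : Γ, G.dist (γ • x) y ≤ ρ → Q n γ := by
    intro n
    induction n with
    | zero =>
      intro y hy γ hγ
      have h3 : x = y := (hc.dist_eq_zero_iff).1 (Nat.le_zero.1 hy)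
      refine h0 γ ?_
      rw [SimpleGraph.dist_comm, h3]
      rw [← h3] at hγ ⊢
      omega
    | succ n ih =>
      intro y hy γ hγ
      obtain ⟨p, hp⟩ := hc.exists_walk_length_eq_dist y x
      have hex : ∃ w, G.dist x w ≤ n ∧ G.dist w y ≤ 1 := by
        cases p with
        | nil => exact ⟨x, by simp [SimpleGraph.dist_self], by simp [SimpleGraph.dist_self]⟩
        | @cons _ w _ hadj q =>
          refine ⟨w, ?_, ?_⟩
          · have h4 : G.dist w x ≤ q.length := SimpleGraph.dist_le q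
            rw [SimpleGraph.Walk.length_cons, SimpleGraph.dist_comm] at hp
            rw [SimpleGraph.dist_comm] at h4
            omega
          · have h4 := SimpleGraph.dist_le (SimpleGraph.Walk.cons hadj.symm SimpleGraph.Walk.nil)
            simpa using h4
      obtain ⟨w, hw1, hw2⟩ := hex
      obtain ⟨γ', hγ'⟩ := hρ w
      have h5 := ih w hw1 γ' hγ'
      have h6 : G.dist x ((γ'⁻¹ * γ) • x) ≤ 2 * ρ + 1 := by
        rw [← hg.dist_smul hc γ', mul_smul, smul_inv_smul]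
        have h7 := hc.dist_triangle (u := γ' • x) (v := w) (w := γ • x)
        have h8 := hc.dist_triangle (u := w) (v := y) (w := γ • x)
        rw [SimpleGraph.dist_comm (u := y)] at h8
        omega
      have h9 := h1 n γ' (γ'⁻¹ * γ) h5 h6
      rwa [mul_inv_cancel_left] at h9
  exact key _ (γ • x) le_rfl γ (by simp [SimpleGraph.dist_self])

theorem Geometric.fg (hg : Geometric Γ X G) [G.LocallyFinite] (hc : G.Connected) : Group.FG Γ := by
  obtain ⟨x⟩ := hc.nonempty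
  obtain ⟨R, hR⟩ := hg.word hc x
  refine ⟨⟨(hg.finite hc x R).toFinset, ?_⟩⟩
  rw [eq_top_iff]
  intro γ _
  rw [Set.Finite.coe_toFinset]
  refine hR (fun _ γ => γ ∈ Subgroup.closure {γ : Γ | G.dist x (γ • x) ≤ R}) ?_ ?_ ?_ γ
  · intro γ hγ
    exact Subgroup.subset_closure hγ
  · intro n γ s hγ hs
    exact mul_mem hγ (Subgroup.subset_closure hs)
  · intro n γ hγ
    exact hγ

theorem Geometric.growth (hg : Geometric Γ X G) [G.LocallyFinite] (hc : G.Connected) (hG : Good Γ)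
    (γ : Γ) (h1 : γ ≠ 1) (x : X) :
    ∃ kap : ℝ, 0 < kap ∧ ∀ n : ℕ, kap * n ≤ G.dist x ((hg.aut γ ^ n) x) + 1 := by
  obtain ⟨L, hL, hL2⟩ := hG.len
  obtain ⟨R, hR⟩ := hg.word hc x
  have hfin := hg.finite hc x R
  set M : ℕ := hfin.toFinset.sup L with hM
  have hS : ∀ s : Γ, G.dist x (s • x) ≤ R → L s ≤ M := fun s hs =>
    Finset.le_sup (f := L) (hfin.mem_toFinset.2 hs)
  have h2 : ∀ g : Γ, L g ≤ M * (G.dist x (g • x) + 1) := by
    refine hR (fun n g => L g ≤ M * (n + 1)) ?_ ?_ ?_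
    · intro g hg'
      simpa using hS g hg'
    · intro n g s hgn hs
      calc L (g * s) ≤ L g + L s := hL g s
        _ ≤ M * (n + 1) + M := add_le_add hgn (hS s hs)
        _ = M * (n + 1 + 1) := by ring
    · intro n g hgn
      exact hgn.trans (Nat.mul_le_mul_left M (by omega))
  refine ⟨1 / (M + 1 : ℝ), by positivity, fun n => ?_⟩
  have h3 := (hL2 γ h1 n).trans (h2 (γ ^ n))
  have h4 : (hg.aut γ ^ n) x = (γ ^ n) • x := by
    rw [← map_pow]
    rfl
  rw [h4, div_mul_eq_mul_div, one_mul, div_le_iff₀ (by positivity)]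
  have h5 : (n : ℝ) ≤ M * ((G.dist x ((γ ^ n) • x) : ℕ) + 1 : ℝ) := by exact_mod_cast h3
  have h6 : (0 : ℝ) ≤ ((G.dist x ((γ ^ n) • x) : ℕ) : ℝ) + 1 := by positivity
  nlinarith

section Core

variable [G.LocallyFinite] (hg : Geometric Γ X G) (hc : G.Connected) (hG : Good Γ)

include hg hc hG

/-- An element of the group and an element of `InP` with the same value at a point. -/
theorem eq_one_of_smul {Δ : ℕ} (hΔ : ∀ x, G.degree x ≤ Δ) {lam : ℝ} (hl : (Δ : ℝ) < lam)
    (hl1 : 1 < lam) {x0 : X} {p : G ≃g G} (hp : InP G lam x0 p) {γ : Γ} {y : X}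
    (h : γ • y = p y) : γ = 1 := by
  by_contra h1
  obtain ⟨kap, hk, hf⟩ := hg.growth hc hG γ h1 y
  obtain ⟨k, hk1, hk2⟩ := lemM G hc Δ hΔ lam hl hl1 x0 y (hg.aut γ) kap hk hf
  rw [hg.aut_apply, h, hp.inv k hk1] at hk2
  exact lt_irrefl _ hk2

/-- The orbits of `InP`. -/
theorem orb_inP {Δ : ℕ} (hΔ : ∀ x, G.degree x ≤ Δ) {lam : ℝ} (hl : (Δ : ℝ) < lam)
    (hl1 : 1 < lam) (x0 y : X) : {w | ∃ p, InP G lam x0 p ∧ p y = w}.Finite ∧
    {w | ∃ p, InP G lam x0 p ∧ p y = w}.ncard ≤ Nat.card (MulAction.orbitRel.Quotient Γ X) := by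
  have := hg.cof
  have hinj : Set.InjOn (fun w => Quotient.mk (MulAction.orbitRel Γ X) w)
      {w | ∃ p, InP G lam x0 p ∧ p y = w} := by
    rintro w1 ⟨p1, hp1, rfl⟩ w2 ⟨p2, hp2, rfl⟩ h12
    have h3 : (p1 y) ∈ MulAction.orbit Γ (p2 y) := Quotient.exact h12
    obtain ⟨γ, hγ⟩ := h3
    have hγ' : γ • (p2 y) = p1 y := hγ
    have h4 : γ • (p2 y) = (p1 * p2⁻¹) (p2 y) := by
      rw [hγ']
      change p1 y = p1 (p2⁻¹ (p2 y))
      congr 1
      exact (p2.symm_apply_apply y).symm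
    have h5 := eq_one_of_smul hg hc hG hΔ hl hl1 (hp1.mul hp2.inv' hc) h4
    rw [h5, one_smul] at hγ'
    exact hγ'.symm
  constructor
  · exact Set.Finite.of_injOn (fun w _ => Set.mem_univ _) hinj Set.finite_univ
  · rw [← Set.ncard_univ]
    exact Set.ncard_le_ncard_of_injOn _ (fun w _ => Set.mem_univ _) hinj Set.finite_univ

theorem diam_inP {Δ : ℕ} (hΔ : ∀ x, G.degree x ≤ Δ) {lam : ℝ} (hl : (Δ : ℝ) < lam)
    (hl1 : 1 < lam) (x0 : X) : ∃ δ : ℕ, ∀ p, InP G lam x0 p → ∀ y, G.dist y (p y) ≤ δ := by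
  classical
  have := hg.cof
  have := Fintype.ofFinite (MulAction.orbitRel.Quotient Γ X)
  have h1 : ∀ y, ∃ d : ℕ, ∀ p, InP G lam x0 p → G.dist y (p y) ≤ d := by
    intro y
    have h2 := (orb_inP hg hc hG hΔ hl hl1 x0 y).1
    refine ⟨h2.toFinset.sup fun w => G.dist y w, fun p hp => ?_⟩
    exact Finset.le_sup (f := fun w => G.dist y w) (h2.mem_toFinset.2 ⟨p, hp, rfl⟩)
  choose d hd using h1
  refine ⟨Finset.univ.sup fun q : MulAction.orbitRel.Quotient Γ X => d (Quotient.out q),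
    fun p hp y => ?_⟩
  obtain ⟨γ, hγ⟩ := exists_out (Γ := Γ) y
  set r := Quotient.out (Quotient.mk (MulAction.orbitRel Γ X) y) with hr
  have h3 := hp.conj (hg.aut γ)⁻¹ hl1 hc
  have h4 := hd r _ h3
  have h5 : G.dist y (p y) = G.dist r (((hg.aut γ)⁻¹ * p * ((hg.aut γ)⁻¹)⁻¹) r) := by
    have h6 : hg.aut γ (((hg.aut γ)⁻¹ * p * ((hg.aut γ)⁻¹)⁻¹) r) = p y := by
      rw [inv_inv]
      change hg.aut γ ((hg.aut γ)⁻¹ (p (hg.aut γ r))) = p y
      rw [hg.aut_apply γ r, hγ]
      exact (hg.aut γ).apply_symm_apply _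
    rw [← dist_aut (hg.aut γ) hc r, h6, hg.aut_apply, hγ]
  rw [h5]
  refine h4.trans ?_
  exact Finset.le_sup (f := fun q : MulAction.orbitRel.Quotient Γ X => d (Quotient.out q))
    (Finset.mem_univ _)

end Core

end Pool.Agent.Lib.MP_3e27e0_al.CM
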