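import Pool.Agent.Lib.MP_3e27e0_al.CM.Thomp

/-!
# Project CM: definitions for the final statements
-/

set_option autoImplicit false

namespace Pool.Agent.Lib.MP_3e27e0_al.CM

/-- Thompson's group F as a type. -/
def TF : Type := ThompsonF

instance instGroupTF : Group TF := inferInstanceAs (Group ThompsonF)

/-- The FC-centre: the elements with finitely many conjugates. -/
def FCcentre (Λ : Type*) [Group Λ] : Set Λ := {l | {c : Λ | ∃ m : Λ, c = m * l * m⁻¹}.Finite}

/-- The orbit of `y` under the group of all bounded automorphisms of the graph. -/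
def bddOrbit {X : Type*} (G : SimpleGraph X) (y : X) : Set X :=
  {w | ∃ b : G ≃g G, BddAut G b ∧ b y = w}

/-- The number of orbits of vertices. -/
noncomputable def numOrb (Γ X : Type*) [Group Γ] [MulAction Γ X] : ℕ :=
  Nat.card (MulAction.orbitRel.Quotient Γ X)

/-- `G` is a connected locally finite graph on which the group `Γ` acts geometrically. -/
def Model (Γ X : Type*) [Group Γ] [MulAction Γ X] (G : SimpleGraph X) : Prop :=
  G.Connected ∧ (∀ x, (G.neighborSet x).Finite) ∧ Geometric Γ X G

end Pool.Agent.Lib.MP_3e27e0_al.CM
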