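import Pool.Agent.Lib.MP_3e27e0_al.CM.Def

/-!
# Project CM: Thompson's group is a group

Claim (C): for `f` with `IsT f` (set `s`) and `a < b` in `[0, 1]` with `a`, `f a` dyadic: `b` is dyadic if
and only if `f b` is dyadic (strong induction on the number of points of `s` in `(a, b)`). So the set
`s_g ∪ g⁻¹(s_f ∩ [0,1])` works for `f * g`, the set `f(s_f ∩ [0,1])` for `f⁻¹`.
-/

set_option autoImplicit false

namespace Pool.Agent.Lib.MP_3e27e0_al.CM

private theorem dyadic_add {x y : ℝ} (hx : Dyadic x) (hy : Dyadic y) : Dyadic (x + y) := by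
  obtain ⟨m, k, rfl⟩ := hx
  obtain ⟨m', k', rfl⟩ := hy
  refine ⟨m * 2 ^ k' + m' * 2 ^ k, k + k', ?_⟩
  push_cast
  rw [pow_add]
  field_simp

private theorem dyadic_neg {x : ℝ} (hx : Dyadic x) : Dyadic (-x) := by
  obtain ⟨m, k, rfl⟩ := hx
  refine ⟨-m, k, ?_⟩
  push_cast
  rw [neg_div]

private theorem dyadic_sub_iff {x y : ℝ} (hy : Dyadic y) : Dyadic (x - y) ↔ Dyadic x := by
  constructor
  · intro h
    have := dyadic_add h hy
    rwa [sub_add_cancel] at this
  · intro h
    rw [sub_eq_add_neg]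
    exact dyadic_add h (dyadic_neg hy)

private theorem dyadic_zpow {x : ℝ} (hx : Dyadic x) (k : ℤ) : Dyadic ((2 : ℝ) ^ k * x) := by
  obtain ⟨m, j, rfl⟩ := hx
  obtain ⟨n, rfl | rfl⟩ := k.eq_nat_or_neg
  · refine ⟨2 ^ n * m, j, ?_⟩
    rw [zpow_natCast]
    push_cast
    ring
  · refine ⟨m, j + n, ?_⟩
    rw [zpow_neg, zpow_natCast, pow_add]
    field_simp

private theorem dyadic_zpow_iff {x : ℝ} (k : ℤ) : Dyadic ((2 : ℝ) ^ k * x) ↔ Dyadic x := by
  refine ⟨fun h => ?_, fun h => dyadic_zpow h k⟩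
  have := dyadic_zpow h (-k)
  rwa [← mul_assoc, ← zpow_add₀ (by norm_num), neg_add_cancel, zpow_zero, one_mul] at this

private theorem dyadic_zero : Dyadic 0 := ⟨0, 0, by simp⟩

private theorem dyadic_one : Dyadic 1 := ⟨1, 0, by simp⟩

private theorem dyadic_proj {x : ℝ} (hx : Dyadic x) :
    Dyadic ((Set.projIcc (0 : ℝ) 1 zero_le_one x : UI) : ℝ) := by
  rw [Set.coe_projIcc]
  rcases min_choice (1 : ℝ) x with h | h
  · rw [h, max_eq_right zero_le_one]
    exact dyadic_one
  · rw [h]
    rcases max_choice (0 : ℝ) x with h' | h'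
    · rw [h']
      exact dyadic_zero
    · rw [h']
      exact hx

theorem IsT.one : IsT 1 := by
  refine ⟨∅, fun x hx => absurd hx (Finset.notMem_empty x), fun a b _ _ => ⟨0, fun t _ _ => ?_⟩⟩
  rw [zpow_zero, one_mul]
  rfl

/-- Claim (C), with `a = 0`. -/
theorem IsT.dyadic {f : UI ≃o UI} (hf : IsT f) (b : UI) : Dyadic (f b : ℝ) ↔ Dyadic (b : ℝ) := by
  classical
  obtain ⟨s, hs, h⟩ := hf
  have key : ∀ n : ℕ, ∀ b : UI, (s.filter fun x => 0 < x ∧ x < (b : ℝ)).card = n →
      (Dyadic (f b : ℝ) ↔ Dyadic (b : ℝ)) := by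
    intro n
    induction n using Nat.strong_induction_on with
    | _ n ih =>
      intro b hb
      have h0 : f ⊥ = ⊥ := map_bot f
      have h00 : ((⊥ : UI) : ℝ) = 0 := rfl
      rcases eq_or_lt_of_le (bot_le : ⊥ ≤ b) with e | hb0
      · rw [← e, h0]
      · rcases (s.filter fun x => 0 < x ∧ x < (b : ℝ)).eq_empty_or_nonempty with hE | hN
        · obtain ⟨k, hk⟩ := h ⊥ b hb0 fun x hx => by
            by_contra hc
            rw [not_or, not_le, not_le, h00] at hc
            have : x ∈ s.filter fun x => 0 < x ∧ x < (b : ℝ) := Finset.mem_filter.2 ⟨hx, hc⟩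
            rw [hE] at this
            exact Finset.notMem_empty x this
          have e := hk b hb0.le le_rfl
          rw [h0, h00, sub_zero, sub_zero] at e
          rw [e]
          exact dyadic_zpow_iff k
        · set c := (s.filter fun x => 0 < x ∧ x < (b : ℝ)).max' hN with hc
          have hcm := Finset.max'_mem _ hN
          rw [← hc, Finset.mem_filter] at hcm
          obtain ⟨hcs, hc0, hcb⟩ := hcm
          have hc1 : c ≤ 1 := hcb.le.trans b.2.2
          have hcd : Dyadic (f ⟨c, hc0.le, hc1⟩ : ℝ) := by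
            refine (ih _ ?_ ⟨c, hc0.le, hc1⟩ rfl).2 (hs c hcs)
            rw [← hb]
            refine Finset.card_lt_card ⟨?_, ?_⟩
            · intro x hx
              rw [Finset.mem_filter] at hx ⊢
              exact ⟨hx.1, hx.2.1, hx.2.2.trans hcb⟩
            · intro hsub
              have := hsub (Finset.mem_filter.2 ⟨hcs, hc0, hcb⟩)
              rw [Finset.mem_filter] at this
              exact lt_irrefl _ this.2.2
          obtain ⟨k, hk⟩ := h ⟨c, hc0.le, hc1⟩ b hcb fun x hx => by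
            by_contra hc'
            rw [not_or, not_le, not_le] at hc'
            have hxm : x ∈ s.filter fun x => 0 < x ∧ x < (b : ℝ) :=
              Finset.mem_filter.2 ⟨hx, hc0.trans hc'.1, hc'.2⟩
            have := Finset.le_max' _ x hxm
            rw [← hc] at this
            exact not_le.2 hc'.1 this
          have e := hk b (le_of_lt hcb) le_rfl
          rw [← dyadic_sub_iff hcd, e, dyadic_zpow_iff]
          exact dyadic_sub_iff (hs c hcs)
  exact key _ b rfl

theorem IsT.mul {f g : UI ≃o UI} (hf : IsT f) (hg : IsT g) : IsT (f * g) := by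
  classical
  have hgd := hg.dyadic
  obtain ⟨s, hs, h⟩ := hf
  obtain ⟨s', hs', h'⟩ := hg
  refine ⟨s' ∪ s.image fun x => ((g.symm (Set.projIcc 0 1 zero_le_one x) : UI) : ℝ), ?_, ?_⟩
  · intro x hx
    rcases Finset.mem_union.1 hx with hx | hx
    · exact hs' x hx
    · obtain ⟨y, hy, rfl⟩ := Finset.mem_image.1 hx
      rw [← hgd, OrderIso.apply_symm_apply]
      exact dyadic_proj (hs y hy)
  · intro a b hab hx
    obtain ⟨k, hk⟩ := h' a b hab fun x hx' => hx x (Finset.mem_union_left _ hx')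
    have hgab : g a < g b := g.lt_iff_lt.2 hab
    obtain ⟨l, hl⟩ := h (g a) (g b) hgab fun x hxs => by
      by_contra hc
      rw [not_or, not_le, not_le] at hc
      have hx0 : 0 ≤ x := (g a).2.1.trans hc.1.le
      have hx1 : x ≤ 1 := hc.2.le.trans (g b).2.2
      have hp : Set.projIcc (0 : ℝ) 1 zero_le_one x = ⟨x, hx0, hx1⟩ :=
        Set.projIcc_of_mem zero_le_one ⟨hx0, hx1⟩
      have := hx _ (Finset.mem_union_right _ (Finset.mem_image_of_mem _ hxs))
      rw [hp] at this
      rcases this with h1 | h1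
      · have h2 : g.symm ⟨x, hx0, hx1⟩ ≤ a := h1
        rw [OrderIso.symm_apply_le] at h2
        exact not_le.2 hc.1 h2
      · have h2 : b ≤ g.symm ⟨x, hx0, hx1⟩ := h1
        rw [OrderIso.le_symm_apply] at h2
        exact not_le.2 hc.2 h2
    refine ⟨l + k, fun t hat htb => ?_⟩
    have e1 := hk t hat htb
    have e2 := hl (g t) (g.monotone hat) (g.monotone htb)
    rw [e1, ← mul_assoc, ← zpow_add₀ (by norm_num)] at e2
    exact e2

theorem IsT.inv {f : UI ≃o UI} (hf : IsT f) : IsT f⁻¹ := by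
  classical
  have hfd := hf.dyadic
  obtain ⟨s, hs, h⟩ := hf
  refine ⟨s.image fun x => ((f (Set.projIcc 0 1 zero_le_one x) : UI) : ℝ), ?_, ?_⟩
  · intro x hx
    obtain ⟨y, hy, rfl⟩ := Finset.mem_image.1 hx
    exact (hfd _).2 (dyadic_proj (hs y hy))
  · intro a b hab hx
    have hab' : f.symm a < f.symm b := f.symm.lt_iff_lt.2 hab
    obtain ⟨k, hk⟩ := h (f.symm a) (f.symm b) hab' fun x hxs => by
      by_contra hc
      rw [not_or, not_le, not_le] at hc
      have hx0 : 0 ≤ x := (f.symm a).2.1.trans hc.1.le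
      have hx1 : x ≤ 1 := hc.2.le.trans (f.symm b).2.2
      have hp : Set.projIcc (0 : ℝ) 1 zero_le_one x = ⟨x, hx0, hx1⟩ :=
        Set.projIcc_of_mem zero_le_one ⟨hx0, hx1⟩
      have := hx _ (Finset.mem_image_of_mem _ hxs)
      rw [hp] at this
      rcases this with h1 | h1
      · have h2 : f ⟨x, hx0, hx1⟩ ≤ a := h1
        rw [← OrderIso.le_symm_apply] at h2
        exact not_le.2 hc.1 h2
      · have h2 : b ≤ f ⟨x, hx0, hx1⟩ := h1
        rw [← OrderIso.symm_apply_le] at h2
        exact not_le.2 hc.2 h2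
    refine ⟨-k, fun t hat htb => ?_⟩
    have e := hk (f.symm t) (f.symm.monotone hat) (f.symm.monotone htb)
    rw [OrderIso.apply_symm_apply, OrderIso.apply_symm_apply] at e
    rw [e, ← mul_assoc, ← zpow_add₀ (by norm_num), neg_add_cancel, zpow_zero, one_mul]
    rfl

/-- Thompson's group F. -/
def ThompsonF : Subgroup (UI ≃o UI) where
  carrier := {f | IsT f}
  mul_mem' := fun ha hb => ha.mul hb
  one_mem' := IsT.one
  inv_mem' := fun ha => ha.inv

end Pool.Agent.Lib.MP_3e27e0_al.CM
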