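import Pool.Agent.Lib.MP_3e27e0_al.CM.Thomp

/-!
# Project CM: centralisers of subgroups of finite index of Thompson's group

For `c = j / 2^k`, `r = 1 / 2^k` with `0 ≤ c`, `c + r ≤ 1` the element `bump c r` of F has support
exactly `(c, c + r)`: `t ↦ min t (max (c + (t - c)/2) (max (t - r/4) (2t - c - r)))`. A power
`(bump c r)^m`, `m ≥ 1`, lies in `H` (finite index) and has the same support. If `g` commutes with it,
`g` maps the support to itself, so `g c = c`. The numbers `c` are dense, so `g = 1`.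
-/

set_option autoImplicit false

namespace Pool.Agent.Lib.MP_3e27e0_al.CM

private noncomputable def xf (c r t : ℝ) : ℝ :=
  min t (max (c + (t - c) / 2) (max (t - r / 4) (2 * t - c - r)))

private noncomputable def yf (c r s : ℝ) : ℝ :=
  max s (min (2 * s - c) (min (s + r / 4) ((s + c + r) / 2)))

private theorem xf_mono (c r : ℝ) : StrictMono (xf c r) := by
  intro s t h
  unfold xf
  refine min_lt_min h (max_lt_max ?_ (max_lt_max ?_ ?_)) <;> linarith

private theorem xf1 {c r t : ℝ} (h : t ≤ c) : xf c r t = t := by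
  unfold xf
  exact min_eq_left (le_max_of_le_left (by linarith))

private theorem xf2 {c r t : ℝ} (h : c ≤ t) (h' : t ≤ c + r / 2) :
    xf c r t = c + (t - c) / 2 := by
  unfold xf
  have h1 : max (t - r / 4) (2 * t - c - r) ≤ c + (t - c) / 2 := max_le (by linarith) (by linarith)
  rw [max_eq_left h1]
  exact min_eq_right (by linarith)

private theorem xf3 {c r t : ℝ} (hr : 0 < r) (h : c + r / 2 ≤ t) (h' : t ≤ c + 3 * r / 4) :
    xf c r t = t - r / 4 := by
  unfold xf
  have h1 : 2 * t - c - r ≤ t - r / 4 := by linarith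
  have h2 : c + (t - c) / 2 ≤ t - r / 4 := by linarith
  rw [max_eq_left h1, max_eq_right h2]
  exact min_eq_right (by linarith)

private theorem xf4 {c r t : ℝ} (hr : 0 < r) (h : c + 3 * r / 4 ≤ t) (h' : t ≤ c + r) :
    xf c r t = 2 * t - c - r := by
  unfold xf
  have h1 : t - r / 4 ≤ 2 * t - c - r := by linarith
  have h2 : c + (t - c) / 2 ≤ 2 * t - c - r := by linarith
  rw [max_eq_right h1, max_eq_right h2]
  exact min_eq_right (by linarith)

private theorem xf5 {c r t : ℝ} (h : c + r ≤ t) : xf c r t = t := by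
  unfold xf
  exact min_eq_left (le_max_of_le_right (le_max_of_le_right (by linarith)))

private theorem xf_yf {c r : ℝ} (hr : 0 < r) (s : ℝ) : xf c r (yf c r s) = s := by
  rcases le_total s c with h1 | h1
  · have : yf c r s = s := by
      unfold yf
      exact max_eq_left (min_le_of_left_le (by linarith))
    rw [this, xf1 h1]
  rcases le_total s (c + r / 4) with h2 | h2
  · have : yf c r s = 2 * s - c := by
      unfold yf
      rw [min_eq_left (le_min (by linarith) (by linarith))]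
      exact max_eq_right (by linarith)
    rw [this, xf2 (by linarith) (by linarith)]
    ring
  rcases le_total s (c + r / 2) with h3 | h3
  · have : yf c r s = s + r / 4 := by
      unfold yf
      rw [min_eq_left (by linarith : s + r / 4 ≤ (s + c + r) / 2),
        min_eq_right (by linarith : s + r / 4 ≤ 2 * s - c)]
      exact max_eq_right (by linarith)
    rw [this, xf3 hr (by linarith) (by linarith)]
    ring
  rcases le_total s (c + r) with h4 | h4
  · have : yf c r s = (s + c + r) / 2 := by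
      unfold yf
      rw [min_eq_right (by linarith : (s + c + r) / 2 ≤ s + r / 4),
        min_eq_right (by linarith : (s + c + r) / 2 ≤ 2 * s - c)]
      exact max_eq_right (by linarith)
    rw [this, xf4 hr (by linarith) (by linarith)]
    ring
  · have : yf c r s = s := by
      unfold yf
      exact max_eq_left (min_le_of_right_le (min_le_of_right_le (by linarith)))
    rw [this, xf5 h4]

private theorem xf_mem {c r : ℝ} (hc : 0 ≤ c) (t : UI) : xf c r t ∈ Set.Icc (0 : ℝ) 1 := by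
  obtain ⟨t, h0, h1⟩ := t
  refine ⟨le_min h0 (le_max_of_le_left ?_), (min_le_left _ _).trans h1⟩
  simp only
  linarith

private theorem yf_mem {c r : ℝ} (hcr : c + r ≤ 1) (t : UI) : yf c r t ∈ Set.Icc (0 : ℝ) 1 := by
  obtain ⟨t, h0, h1⟩ := t
  refine ⟨h0.trans (le_max_left _ _), max_le h1 (min_le_of_right_le (min_le_of_right_le ?_))⟩
  simp only
  linarith

private noncomputable def bump (c r : ℝ) (hc : 0 ≤ c) (hr : 0 < r) (hcr : c + r ≤ 1) : UI ≃o UI :=
  StrictMono.orderIsoOfRightInverse (fun t : UI => (⟨xf c r t, xf_mem hc t⟩ : UI))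
    (fun _ _ h => Subtype.mk_lt_mk.2 (xf_mono c r h)) (fun t : UI => (⟨yf c r t, yf_mem hcr t⟩ : UI))
    (fun s => Subtype.ext (xf_yf hr s))

private theorem bump_apply {c r : ℝ} (hc : 0 ≤ c) (hr : 0 < r) (hcr : c + r ≤ 1) (t : UI) :
    (bump c r hc hr hcr t : ℝ) = xf c r t := rfl

private theorem bump_isT {c r : ℝ} (hc : 0 ≤ c) (hr : 0 < r) (hcr : c + r ≤ 1) (k : ℕ) (j : ℤ)
    (hc' : c = j / 2 ^ k) (hr' : r = 1 / 2 ^ k) : IsT (bump c r hc hr hcr) := by
  classical
  have h2 : (2 : ℝ) ^ k ≠ 0 := by positivity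
  refine ⟨{c, c + r / 2, c + 3 * r / 4, c + r}, ?_, ?_⟩
  · intro x hx
    simp only [Finset.mem_insert, Finset.mem_singleton] at hx
    rcases hx with rfl | rfl | rfl | rfl
    · exact ⟨j, k, hc'⟩
    · refine ⟨2 * j + 1, k + 1, ?_⟩
      rw [hc', hr', pow_succ]
      push_cast
      field_simp
    · refine ⟨4 * j + 3, k + 2, ?_⟩
      rw [hc', hr', pow_add]
      push_cast
      field_simp
      ring
    · refine ⟨j + 1, k, ?_⟩
      rw [hc', hr']
      push_cast
      field_simp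
  · intro a b hab hs
    have hab' : (a : ℝ) < b := hab
    have s1 := hs c (by simp)
    have s2 := hs (c + r / 2) (by simp)
    have s3 := hs (c + 3 * r / 4) (by simp)
    have s4 := hs (c + r) (by simp)
    simp only [bump_apply]
    rcases le_or_gt (b : ℝ) c with h1 | h1
    · refine ⟨0, fun t h0 h0' => ?_⟩
      have h0 : (a : ℝ) ≤ t := h0
      have h0' : (t : ℝ) ≤ b := h0'
      rw [xf1 (by linarith), xf1 (by linarith)]
      simp
    have a1 : c ≤ a := s1.resolve_right (not_le.2 h1)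
    rcases le_or_gt (b : ℝ) (c + r / 2) with h2 | h2
    · refine ⟨-1, fun t h0 h0' => ?_⟩
      have h0 : (a : ℝ) ≤ t := h0
      have h0' : (t : ℝ) ≤ b := h0'
      rw [xf2 (by linarith) (by linarith), xf2 (by linarith) (by linarith), zpow_neg_one]
      ring
    have a2 : c + r / 2 ≤ a := s2.resolve_right (not_le.2 h2)
    rcases le_or_gt (b : ℝ) (c + 3 * r / 4) with h3 | h3
    · refine ⟨0, fun t h0 h0' => ?_⟩
      have h0 : (a : ℝ) ≤ t := h0
      have h0' : (t : ℝ) ≤ b := h0'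
      rw [xf3 hr (by linarith) (by linarith), xf3 hr (by linarith) (by linarith)]
      simp
    have a3 : c + 3 * r / 4 ≤ a := s3.resolve_right (not_le.2 h3)
    rcases le_or_gt (b : ℝ) (c + r) with h4 | h4
    · refine ⟨1, fun t h0 h0' => ?_⟩
      have h0 : (a : ℝ) ≤ t := h0
      have h0' : (t : ℝ) ≤ b := h0'
      rw [xf4 hr (by linarith) (by linarith), xf4 hr (by linarith) (by linarith), zpow_one]
      ring
    have a4 : c + r ≤ a := s4.resolve_right (not_le.2 h4)
    refine ⟨0, fun t h0 h0' => ?_⟩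
    have h0 : (a : ℝ) ≤ t := h0
    have h0' : (t : ℝ) ≤ b := h0'
    rw [xf5 (by linarith), xf5 (by linarith)]
    simp

private theorem xf_lt {c r t : ℝ} (hr : 0 < r) (h : c < t) (h' : t < c + r) : xf c r t < t := by
  unfold xf
  refine min_lt_of_right_lt (max_lt ?_ (max_lt ?_ ?_)) <;> linarith

/-- Powers of an order isomorphism below the identity at a point. -/
private theorem pow_lt' (f : UI ≃o UI) (t : UI) (h : f t < t) (m : ℕ) : (f ^ (m + 1)) t < t := by
  induction m with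
  | zero => simpa using h
  | succ m ih =>
    rw [pow_succ', RelIso.mul_apply]
    exact (f.lt_iff_lt.2 ih).trans h

private theorem pow_eq' (f : UI ≃o UI) (t : UI) (h : f t = t) (m : ℕ) : (f ^ m) t = t := by
  induction m with
  | zero => simp
  | succ m ih => rw [pow_succ', RelIso.mul_apply, ih, h]

private theorem fix_of_comm (f g : UI ≃o UI) (c d : UI) (hcd : c < d)
    (hfix : ∀ t, f t = t ↔ (t ≤ c ∨ d ≤ t)) (hc : g * f = f * g) : g c = c := by
  have key : ∀ t, (t ≤ c ∨ d ≤ t) ↔ (g t ≤ c ∨ d ≤ g t) := by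
    intro t
    rw [← hfix, ← hfix]
    have h1 : g (f t) = f (g t) := by
      have := congrArg (fun e : UI ≃o UI => e t) hc
      simpa [RelIso.mul_apply] using this
    rw [← h1, g.injective.eq_iff]
  -- a point strictly between
  obtain ⟨t, ht1, ht2⟩ := exists_between hcd
  have hgt : ¬ (g t ≤ c ∨ d ≤ g t) := by
    rw [← key]
    push_neg
    exact ⟨ht1, ht2⟩
  push_neg at hgt
  rcases lt_trichotomy (g c) c with h | h | h
  · exfalso
    obtain ⟨u, hu⟩ := g.surjective c
    have hcu : c < u := by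
      rw [← g.lt_iff_lt, hu]
      exact h
    have hu2 : u ≤ c ∨ d ≤ u := (key u).2 (Or.inl hu.le)
    have hdu : d ≤ u := hu2.resolve_left (not_le.2 hcu)
    have : g t < g u := g.lt_iff_lt.2 (ht2.trans_le hdu)
    rw [hu] at this
    exact absurd hgt.1 (not_lt.2 this.le)
  · exact h
  · exfalso
    have h1 := (key c).1 (Or.inl le_rfl)
    have h2 : d ≤ g c := h1.resolve_left (not_le.2 h)
    have h3 : g c < g t := g.lt_iff_lt.2 ht1
    exact absurd hgt.2 (not_lt.2 (h2.trans h3.le))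

private theorem exists_dyadic {p q : ℝ} (hp : 0 ≤ p) (hq : q ≤ 1) (hpq : p < q) :
    ∃ (j : ℤ) (k : ℕ), p < (j : ℝ) / 2 ^ k ∧ (j : ℝ) / 2 ^ k < q ∧
      0 ≤ (j : ℝ) / 2 ^ k ∧ (j : ℝ) / 2 ^ k + 1 / 2 ^ k ≤ 1 := by
  obtain ⟨k, hk⟩ := exists_pow_lt_of_lt_one (sub_pos.2 hpq) (by norm_num : (1 / 2 : ℝ) < 1)
  have h2 : (0 : ℝ) < 2 ^ k := by positivity
  rw [one_div, inv_pow, ← one_div] at hk
  refine ⟨⌊p * 2 ^ k⌋ + 1, k, ?_, ?_, ?_, ?_⟩
  · rw [lt_div_iff₀ h2]
    push_cast
    exact Int.lt_floor_add_one _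
  · push_cast
    rw [add_div]
    have : (⌊p * 2 ^ k⌋ : ℝ) / 2 ^ k ≤ p := by
      rw [div_le_iff₀ h2]
      exact Int.floor_le _
    linarith
  · apply div_nonneg _ h2.le
    have : (0 : ℤ) ≤ ⌊p * 2 ^ k⌋ := Int.floor_nonneg.2 (by positivity)
    exact_mod_cast (by omega : (0 : ℤ) ≤ ⌊p * 2 ^ k⌋ + 1)
  · rw [← add_div, div_le_one h2]
    have h3 : (⌊p * 2 ^ k⌋ : ℝ) / 2 ^ k ≤ p := by
      rw [div_le_iff₀ h2]
      exact Int.floor_le _
    have h4 : ((⌊p * 2 ^ k⌋ + 1 : ℤ) : ℝ) < 2 ^ k := by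
      have h5 : ((⌊p * 2 ^ k⌋ + 1 : ℤ) : ℝ) / 2 ^ k < 1 := by
        push_cast
        rw [add_div]
        linarith
      rwa [div_lt_one h2] at h5
    have h6 : (⌊p * 2 ^ k⌋ + 1 : ℤ) < 2 ^ k := by exact_mod_cast h4
    have h7 : (⌊p * 2 ^ k⌋ + 1 : ℤ) + 1 ≤ 2 ^ k := by omega
    exact_mod_cast h7

theorem cen_thompson (H : Subgroup ThompsonF) (hH : H.FiniteIndex) (g : ThompsonF)
    (hg : ∀ h ∈ H, g * h = h * g) : g = 1 := by
  have main : ∀ (j : ℤ) (k : ℕ) (h0 : 0 ≤ (j : ℝ) / 2 ^ k) (h1 : (j : ℝ) / 2 ^ k + 1 / 2 ^ k ≤ 1)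
      (c : UI), (c : ℝ) = (j : ℝ) / 2 ^ k → (g : UI ≃o UI) c = c := by
    intro j k h0 h1 c hc
    have hr : (0 : ℝ) < 1 / 2 ^ k := by positivity
    set f : UI ≃o UI := bump ((j : ℝ) / 2 ^ k) (1 / 2 ^ k) h0 hr h1 with hf
    have hfT : IsT f := bump_isT h0 hr h1 k j rfl rfl
    have hfm : f ∈ ThompsonF := hfT
    obtain ⟨m, hm0, -, hm⟩ := Subgroup.exists_pow_mem_of_index_ne_zero hH.index_ne_zero
      (⟨f, hfm⟩ : ThompsonF)
    obtain ⟨m, rfl⟩ : ∃ n, m = n + 1 := ⟨m - 1, by omega⟩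
    have hcomm := hg _ hm
    have hcomm' : (g : UI ≃o UI) * f ^ (m + 1) = f ^ (m + 1) * (g : UI ≃o UI) := by
      have := congrArg (fun e : ThompsonF => (e : UI ≃o UI)) hcomm
      simpa using this
    have hd0 : (0 : ℝ) ≤ (j : ℝ) / 2 ^ k + 1 / 2 ^ k := by positivity
    refine fix_of_comm (f ^ (m + 1)) g c ⟨(j : ℝ) / 2 ^ k + 1 / 2 ^ k, hd0, h1⟩ ?_ ?_ hcomm'
    · rw [← Subtype.coe_lt_coe, hc]
      simp only
      linarith
    · intro t
      constructor
      · intro ht
        by_contra hcon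
        push_neg at hcon
        have c1 : (j : ℝ) / 2 ^ k < t := by
          rw [← hc]
          exact hcon.1
        have c2 : (t : ℝ) < (j : ℝ) / 2 ^ k + 1 / 2 ^ k := hcon.2
        have hlt : f t < t := by
          rw [← Subtype.coe_lt_coe, hf, bump_apply]
          exact xf_lt hr c1 c2
        exact absurd ht (pow_lt' f t hlt m).ne
      · intro ht
        apply pow_eq'
        apply Subtype.ext
        rw [hf, bump_apply]
        rcases ht with ht | ht
        · apply xf1
          rw [← hc]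
          exact ht
        · apply xf5
          exact ht
  apply Subtype.ext
  apply RelIso.ext
  intro t
  show (g : UI ≃o UI) t = t
  rcases lt_trichotomy ((g : UI ≃o UI) t) t with h | h | h
  · exfalso
    obtain ⟨j, k, e1, e2, e3, e4⟩ := exists_dyadic ((g : UI ≃o UI) t).2.1 t.2.2
      (Subtype.coe_lt_coe.2 h)
    have hp : (0 : ℝ) < 1 / 2 ^ k := by positivity
    have hm := main j k e3 e4 ⟨(j : ℝ) / 2 ^ k, e3, by linarith⟩ rfl
    have h1 : (g : UI ≃o UI) ⟨(j : ℝ) / 2 ^ k, e3, by linarith⟩ < (g : UI ≃o UI) t :=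
      (g : UI ≃o UI).lt_iff_lt.2 e2
    rw [hm] at h1
    have h2 : (j : ℝ) / 2 ^ k < (g : UI ≃o UI) t := h1
    linarith
  · exact h
  · exfalso
    obtain ⟨j, k, e1, e2, e3, e4⟩ := exists_dyadic t.2.1 ((g : UI ≃o UI) t).2.2
      (Subtype.coe_lt_coe.2 h)
    have hp : (0 : ℝ) < 1 / 2 ^ k := by positivity
    have hm := main j k e3 e4 ⟨(j : ℝ) / 2 ^ k, e3, by linarith⟩ rfl
    have h1 : (g : UI ≃o UI) t < (g : UI ≃o UI) ⟨(j : ℝ) / 2 ^ k, e3, by linarith⟩ :=
      (g : UI ≃o UI).lt_iff_lt.2 e1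
    rw [hm] at h1
    have h2 : ((g : UI ≃o UI) t : ℝ) < (j : ℝ) / 2 ^ k := h1
    linarith

end Pool.Agent.Lib.MP_3e27e0_al.CM
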