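import Pool.Agent.Lib.MP_3e27e0_al.CM.Thomp

/-!
# Project CM: the length of elements of Thompson's group

`L f` = least `k` with `|f s - f t| ≤ 2^k |s - t|` and `|s - t| ≤ 2^k |f s - f t|` for all `s, t` (such a `k`
exists: finitely many slopes; `|f s - f t|` is additive over the breakpoints between `s` and `t`; strong
induction on the number of points of `s_f` in `(s, t)`, or: every interval free of points of `s_f` is
contained in one of finitely many). If `f ≠ 1`: there is `a` (a point of `s_f ∪ {0}`) with `f = id` on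
`[0, a]` and slope `2^k ≠ 1` on some `[a, a + ε]`; `f` or `f⁻¹` contracts `[a, a + ε']` linearly by `2^(-|k|)`; so
`L (f^n) ≥ n`.
-/

set_option autoImplicit false

namespace Pool.Agent.Lib.MP_3e27e0_al.CM

private theorem thl_zero (f : UI ≃o UI) : f 0 = 0 := by
  apply le_antisymm
  · have h1 : f 0 ≤ f (f.symm 0) := f.monotone (f.symm 0).2.1
    rwa [OrderIso.apply_symm_apply] at h1
  · exact (f 0).2.1

/-- First point where `f` leaves the identity. -/
theorem IsT.first {f : UI ≃o UI} (hf : IsT f) (h1 : f ≠ 1) : ∃ a b : UI, a < b ∧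
    (∀ t, t ≤ a → f t = t) ∧ ∃ k : ℤ, k ≠ 0 ∧ ∀ t : UI, a ≤ t → t ≤ b →
      (f t : ℝ) - (a : ℝ) = (2 : ℝ) ^ k * ((t : ℝ) - (a : ℝ)) := by
  classical
  obtain ⟨s, -, hs⟩ := hf
  set Q : Finset ℝ := insert 0 (insert 1 s) with hQ
  have hQfin : {x : UI | (x : ℝ) ∈ Q}.Finite :=
    Q.finite_toSet.preimage Subtype.val_injective.injOn
  have hS1 : {x : UI | (x : ℝ) ∈ Q ∧ ∀ t, t ≤ x → f t = t}.Finite :=
    hQfin.subset fun x hx => hx.1
  obtain ⟨a, ⟨haQ, ha⟩, hmax⟩ := Set.exists_max_image _ id hS1 ⟨0, by simp [hQ], fun t ht => by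
    have h2 : t = 0 := le_antisymm ht t.2.1
    rw [h2]
    exact thl_zero f⟩
  have ha1 : a < 1 := by
    refine lt_of_le_of_ne a.2.2 fun h2 => h1 ?_
    ext t
    rw [ha t (h2 ▸ t.2.2)]
    rfl
  have hS2 : {x : UI | (x : ℝ) ∈ Q ∧ a < x}.Finite := hQfin.subset fun x hx => hx.1
  obtain ⟨b, ⟨hbQ, hab⟩, hmin⟩ := Set.exists_min_image _ id hS2 ⟨1, by simp [hQ], ha1⟩
  have hfree : ∀ x ∈ s, x ≤ (a : ℝ) ∨ (b : ℝ) ≤ x := by
    intro x hx
    by_contra hcon
    push Not at hcon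
    have hx0 : x ∈ Set.Icc (0 : ℝ) 1 := ⟨a.2.1.trans hcon.1.le, hcon.2.le.trans b.2.2⟩
    have h2 := hmin ⟨x, hx0⟩ ⟨by simp [hQ, hx], hcon.1⟩
    exact absurd hcon.2 (not_lt.mpr h2)
  obtain ⟨k, hk⟩ := hs a b hab hfree
  have hfa : f a = a := ha a le_rfl
  rw [hfa] at hk
  refine ⟨a, b, hab, ha, k, ?_, hk⟩
  rintro rfl
  have h2 : b ≤ a := by
    refine hmax b ⟨hbQ, fun t ht => ?_⟩
    rcases le_total t a with h3 | h3
    · exact ha t h3
    · have h4 := hk t h3 ht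
      rw [zpow_zero, one_mul] at h4
      apply Subtype.ext
      linarith
  exact absurd hab (not_lt.mpr h2)

private theorem thl_lip {f : UI ≃o UI} {s : Finset ℝ}
    (hs : ∀ a b : UI, a < b → (∀ x ∈ s, x ≤ (a : ℝ) ∨ (b : ℝ) ≤ x) →
      ∃ k : ℤ, ∀ t : UI, a ≤ t → t ≤ b → (f t : ℝ) - (f a : ℝ) = (2 : ℝ) ^ k * ((t : ℝ) - (a : ℝ)))
    (N : ℕ) : ∀ a b : UI, (s.filter fun x => (a : ℝ) < x ∧ x < b).card ≤ N →
      ∃ k : ℕ, ∀ x y : UI, a ≤ x → x ≤ y → y ≤ b →
        (f y : ℝ) - f x ≤ 2 ^ k * ((y : ℝ) - x) ∧ (y : ℝ) - x ≤ 2 ^ k * ((f y : ℝ) - f x) := by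
  classical
  induction N with
  | zero =>
    intro a b hab
    rcases lt_or_ge a b with h1 | h1
    · have hfree : ∀ x ∈ s, x ≤ (a : ℝ) ∨ (b : ℝ) ≤ x := by
        intro x hx
        by_contra hcon
        push Not at hcon
        have h2 : x ∈ s.filter fun x => (a : ℝ) < x ∧ x < b := Finset.mem_filter.mpr ⟨hx, hcon⟩
        rw [Finset.card_eq_zero.mp (Nat.le_zero.mp hab)] at h2
        exact absurd h2 (Finset.notMem_empty x)
      obtain ⟨k, hk⟩ := hs a b h1 hfree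
      refine ⟨k.natAbs, fun x y hx hxy hy => ?_⟩
      have h2 := hk x hx (hxy.trans hy)
      have h3 := hk y (hx.trans hxy) hy
      have h4 : (f y : ℝ) - f x = (2 : ℝ) ^ k * ((y : ℝ) - x) := by linarith
      have h5 : 0 ≤ (y : ℝ) - x := sub_nonneg.mpr hxy
      have h6 : (2 : ℝ) ^ k ≤ 2 ^ k.natAbs := by
        rw [← zpow_natCast]
        exact zpow_le_zpow_right₀ one_le_two (by omega)
      have h7 : 1 ≤ (2 : ℝ) ^ k.natAbs * (2 : ℝ) ^ k := by
        rw [← zpow_natCast, ← zpow_add₀ two_ne_zero]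
        exact one_le_zpow₀ one_le_two (by omega)
      rw [h4]
      refine ⟨mul_le_mul_of_nonneg_right h6 h5, ?_⟩
      rw [← mul_assoc]
      nlinarith
    · refine ⟨0, fun x y hx hxy hy => ?_⟩
      have h2 : x = y := le_antisymm hxy (hy.trans (h1.trans hx))
      rw [h2]
      simp
  | succ N ih =>
    intro a b hab
    by_cases hex : ∃ c ∈ s, (a : ℝ) < c ∧ c < b
    · obtain ⟨c, hc, hac, hcb⟩ := hex
      have hc0 : c ∈ Set.Icc (0 : ℝ) 1 := ⟨a.2.1.trans hac.le, hcb.le.trans b.2.2⟩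
      have hcm : c ∈ s.filter fun x => (a : ℝ) < x ∧ x < b :=
        Finset.mem_filter.mpr ⟨hc, hac, hcb⟩
      have hl : (s.filter fun x => (a : ℝ) < x ∧ x < c).card ≤ N := by
        have h2 : (s.filter fun x => (a : ℝ) < x ∧ x < c) ⊆
            (s.filter fun x => (a : ℝ) < x ∧ x < b).erase c := by
          intro x hx
          rw [Finset.mem_filter] at hx
          exact Finset.mem_erase.mpr ⟨hx.2.2.ne, Finset.mem_filter.mpr
            ⟨hx.1, hx.2.1, hx.2.2.trans hcb⟩⟩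
        have h3 := Finset.card_le_card h2
        rw [Finset.card_erase_of_mem hcm] at h3
        omega
      have hr : (s.filter fun x => (c : ℝ) < x ∧ x < b).card ≤ N := by
        have h2 : (s.filter fun x => (c : ℝ) < x ∧ x < b) ⊆
            (s.filter fun x => (a : ℝ) < x ∧ x < b).erase c := by
          intro x hx
          rw [Finset.mem_filter] at hx
          exact Finset.mem_erase.mpr ⟨hx.2.1.ne', Finset.mem_filter.mpr
            ⟨hx.1, hac.trans hx.2.1, hx.2.2⟩⟩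
        have h3 := Finset.card_le_card h2
        rw [Finset.card_erase_of_mem hcm] at h3
        omega
      obtain ⟨k, hk⟩ := ih a ⟨c, hc0⟩ hl
      obtain ⟨l, hl'⟩ := ih ⟨c, hc0⟩ b hr
      have hmono : ∀ (m : ℕ) (x y : UI), x ≤ y → m ≤ max k l →
          ((f y : ℝ) - f x ≤ 2 ^ m * ((y : ℝ) - x) ∧ (y : ℝ) - x ≤ 2 ^ m * ((f y : ℝ) - f x)) →
          ((f y : ℝ) - f x ≤ 2 ^ (max k l) * ((y : ℝ) - x) ∧
            (y : ℝ) - x ≤ 2 ^ (max k l) * ((f y : ℝ) - f x)) := by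
        intro m x y hxy hm h2
        have h3 : (2 : ℝ) ^ m ≤ 2 ^ (max k l) := pow_le_pow_right₀ one_le_two hm
        have h4 : 0 ≤ (y : ℝ) - x := sub_nonneg.mpr hxy
        have h5 : 0 ≤ (f y : ℝ) - f x := sub_nonneg.mpr (f.monotone hxy)
        exact ⟨h2.1.trans (mul_le_mul_of_nonneg_right h3 h4),
          h2.2.trans (mul_le_mul_of_nonneg_right h3 h5)⟩
      refine ⟨max k l, fun x y hx hxy hy => ?_⟩
      rcases le_total y ⟨c, hc0⟩ with h2 | h2
      · exact hmono k x y hxy (le_max_left _ _) (hk x y hx hxy h2)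
      · rcases le_total x ⟨c, hc0⟩ with h3 | h3
        · have h4 := hmono k x ⟨c, hc0⟩ h3 (le_max_left _ _) (hk x _ hx h3 le_rfl)
          have h5 := hmono l ⟨c, hc0⟩ y h2 (le_max_right _ _) (hl' _ y le_rfl h2 hy)
          constructor
          · linarith [h4.1, h5.1]
          · linarith [h4.2, h5.2]
        · exact hmono l x y hxy (le_max_right _ _) (hl' x y h3 hxy hy)
    · refine ih a b ?_
      have h2 : (s.filter fun x => (a : ℝ) < x ∧ x < b) = ∅ := by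
        rw [Finset.filter_eq_empty_iff]
        intro x hx h3
        exact hex ⟨x, hx, h3⟩
      rw [h2, Finset.card_empty]
      exact Nat.zero_le _

/-- Bi-Lipschitz constant. -/
theorem IsT.lip {f : UI ≃o UI} (hf : IsT f) : ∃ k : ℕ, ∀ s t : UI,
    |(f s : ℝ) - f t| ≤ 2 ^ k * |(s : ℝ) - t| ∧ |(s : ℝ) - t| ≤ 2 ^ k * |(f s : ℝ) - f t| := by
  obtain ⟨s, -, hs⟩ := hf
  obtain ⟨k, hk⟩ := thl_lip hs _ 0 1 le_rfl
  have key : ∀ x y : UI, x ≤ y →
      |(f y : ℝ) - f x| ≤ 2 ^ k * |(y : ℝ) - x| ∧ |(y : ℝ) - x| ≤ 2 ^ k * |(f y : ℝ) - f x| := by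
    intro x y hxy
    have h1 : 0 ≤ (y : ℝ) - x := sub_nonneg.mpr hxy
    have h2 : 0 ≤ (f y : ℝ) - f x := sub_nonneg.mpr (f.monotone hxy)
    rw [abs_of_nonneg h1, abs_of_nonneg h2]
    exact hk x y x.2.1 hxy y.2.2
  refine ⟨k, fun x y => ?_⟩
  rcases le_total x y with h1 | h1
  · have h2 := key x y h1
    rwa [abs_sub_comm (x : ℝ), abs_sub_comm (f x : ℝ)]
  · exact key y x h1

private theorem thl_pow {h : UI ≃o UI} {a b : UI} (hab : a ≤ b) {m : ℕ}
    (hh : ∀ t : UI, a ≤ t → t ≤ b → (h t : ℝ) - (a : ℝ) = ((t : ℝ) - (a : ℝ)) / 2 ^ m) (n : ℕ) :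
    a ≤ (h ^ n) b ∧ (h ^ n) b ≤ b ∧
      (((h ^ n) b : UI) : ℝ) - (a : ℝ) = ((b : ℝ) - (a : ℝ)) / 2 ^ (m * n) := by
  induction n with
  | zero =>
    rw [pow_zero, RelIso.one_apply]
    exact ⟨hab, le_rfl, by simp⟩
  | succ n ih =>
    obtain ⟨h1, h2, h3⟩ := ih
    rw [pow_succ', RelIso.mul_apply]
    have h4 := hh _ h1 h2
    have h5 : (0 : ℝ) < 2 ^ m := by positivity
    have h6 : (1 : ℝ) ≤ 2 ^ m := one_le_pow₀ one_le_two
    have h7 : 0 ≤ (((h ^ n) b : UI) : ℝ) - a := sub_nonneg.mpr h1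
    refine ⟨?_, ?_, ?_⟩
    · have h8 : 0 ≤ ((h ((h ^ n) b) : UI) : ℝ) - a := by
        rw [h4]
        positivity
      have h9 : (a : ℝ) ≤ ((h ((h ^ n) b) : UI) : ℝ) := by linarith
      exact h9
    · have h8 : ((h ((h ^ n) b) : UI) : ℝ) - a ≤ (((h ^ n) b : UI) : ℝ) - a := by
        rw [h4]
        exact div_le_self h7 h6
      have h9 : ((h ((h ^ n) b) : UI) : ℝ) ≤ (((h ^ n) b : UI) : ℝ) := by linarith
      exact le_trans h9 h2
    · rw [h4, h3, div_div]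
      congr 1
      ring

private theorem thl_cmp {a b : ℝ} (hab : a < b) {K m n : ℕ} (hm : 1 ≤ m)
    (h : b - a ≤ 2 ^ K * ((b - a) / 2 ^ (m * n))) : n ≤ K := by
  have h1 : 0 < b - a := sub_pos.mpr hab
  have h2 : (0 : ℝ) < 2 ^ (m * n) := by positivity
  have h3 : (2 : ℝ) ^ (m * n) ≤ 2 ^ K := by
    rw [mul_div_assoc', le_div_iff₀ h2, mul_comm] at h
    exact le_of_mul_le_mul_right h h1
  have h4 : m * n ≤ K := (pow_le_pow_iff_right₀ one_lt_two).mp h3
  nlinarith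

theorem len_thompson : ∃ L : ThompsonF → ℕ, (∀ g h, L (g * h) ≤ L g + L h) ∧
    ∀ g, g ≠ 1 → ∀ n : ℕ, n ≤ L (g ^ n) := by
  classical
  have hL : ∀ g : ThompsonF, ∃ k : ℕ, ∀ s t : UI,
      |((g : UI ≃o UI) s : ℝ) - (g : UI ≃o UI) t| ≤ 2 ^ k * |(s : ℝ) - t| ∧
        |(s : ℝ) - t| ≤ 2 ^ k * |((g : UI ≃o UI) s : ℝ) - (g : UI ≃o UI) t| := fun g => g.2.lip
  refine ⟨fun g => Nat.find (hL g), fun g h => ?_, fun g hg n => ?_⟩
  · refine Nat.find_min' (hL (g * h)) fun s t => ?_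
    have h1 := Nat.find_spec (hL g) ((h : UI ≃o UI) s) ((h : UI ≃o UI) t)
    have h2 := Nat.find_spec (hL h) s t
    set p := Nat.find (hL g)
    set q := Nat.find (hL h)
    have h3 : ∀ x : UI, ((g * h : ThompsonF) : UI ≃o UI) x = (g : UI ≃o UI) ((h : UI ≃o UI) x) :=
      fun x => rfl
    rw [h3, h3, pow_add]
    have hp : (0 : ℝ) < 2 ^ p := by positivity
    have hq : (0 : ℝ) < 2 ^ q := by positivity
    constructor
    · calc _ ≤ _ := h1.1
        _ ≤ 2 ^ p * (2 ^ q * |(s : ℝ) - t|) := mul_le_mul_of_nonneg_left h2.1 hp.le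
        _ = _ := by ring
    · calc _ ≤ _ := h2.2
        _ ≤ 2 ^ q * (2 ^ p * _) := mul_le_mul_of_nonneg_left h1.2 hq.le
        _ = _ := by ring
  · have hg' : (g : UI ≃o UI) ≠ 1 := fun h0 => hg (Subtype.ext h0)
    obtain ⟨a, b, hab, hfix, k, hk0, hk⟩ := g.2.first hg'
    have hab' : (a : ℝ) < b := hab
    have hK := Nat.find_spec (hL (g ^ n))
    set K := Nat.find (hL (g ^ n))
    have hcoe : ((g ^ n : ThompsonF) : UI ≃o UI) = (g : UI ≃o UI) ^ n := rfl
    rw [hcoe] at hK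
    set f : UI ≃o UI := (g : UI ≃o UI)
    have hfa : f a = a := hfix a le_rfl
    have hfna : (f ^ n) a = a := by
      clear hK hcoe
      induction n with
      | zero => rfl
      | succ n ih => rw [pow_succ, RelIso.mul_apply, hfa, ih]
    rcases lt_or_gt_of_ne hk0 with hk1 | hk1
    · -- `f` contracts
      obtain ⟨m, hm⟩ : ∃ m : ℕ, k = -(m : ℤ) := ⟨k.natAbs, by omega⟩
      have h1 : ∀ t : UI, a ≤ t → t ≤ b → (f t : ℝ) - (a : ℝ) = ((t : ℝ) - (a : ℝ)) / 2 ^ m := by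
        intro t h2 h3
        rw [hk t h2 h3, hm, zpow_neg, zpow_natCast, inv_mul_eq_div]
      obtain ⟨-, -, h2⟩ := thl_pow hab.le h1 n
      have h3 := (hK b a).2
      rw [hfna, h2, abs_of_pos (sub_pos.mpr hab'), abs_of_nonneg
        (div_nonneg (sub_pos.mpr hab').le (by positivity))] at h3
      exact thl_cmp hab' (by omega) h3
    · -- the inverse contracts
      obtain ⟨m, hm⟩ : ∃ m : ℕ, k = (m : ℤ) := ⟨k.natAbs, by omega⟩
      rw [hm] at hk
      simp only [zpow_natCast] at hk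
      have h0 : (1 : ℝ) ≤ 2 ^ m := one_le_pow₀ one_le_two
      have hb : b ≤ f b := by
        have h2 := hk b hab.le le_rfl
        have h3 : (b : ℝ) - a ≤ (f b : ℝ) - a := by
          rw [h2]
          nlinarith [sub_pos.mpr hab']
        have h4 : (b : ℝ) ≤ f b := by linarith
        exact h4
      have h1 : ∀ t : UI, a ≤ t → t ≤ b →
          ((f⁻¹ : UI ≃o UI) t : ℝ) - (a : ℝ) = ((t : ℝ) - (a : ℝ)) / 2 ^ m := by
        intro t h2 h3
        have h4 : f ((f⁻¹ : UI ≃o UI) t) = t := RelIso.apply_inv_self f t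
        have h5 : a ≤ (f⁻¹ : UI ≃o UI) t := by
          rw [← f.le_iff_le, h4, hfa]
          exact h2
        have h6 : (f⁻¹ : UI ≃o UI) t ≤ b := by
          rw [← f.le_iff_le, h4]
          exact h3.trans hb
        have h7 := hk _ h5 h6
        rw [h4] at h7
        rw [eq_div_iff (by positivity), h7]
        ring
      obtain ⟨-, -, h2⟩ := thl_pow hab.le h1 n
      have h3 := (hK (((f⁻¹ : UI ≃o UI) ^ n) b) a).1
      have h4 : (f ^ n) (((f⁻¹ : UI ≃o UI) ^ n) b) = b := by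
        rw [inv_pow]
        exact RelIso.apply_inv_self _ b
      rw [hfna, h4, h2, abs_of_pos (sub_pos.mpr hab'), abs_of_nonneg
        (div_nonneg (sub_pos.mpr hab').le (by positivity))] at h3
      exact thl_cmp hab' (by omega) h3

end Pool.Agent.Lib.MP_3e27e0_al.CM
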